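import Mathlib
import Pool.Agent.W518.DN.Density
import Pool.Agent.H977R3.CM.Aut

/-!
# Flips of Frobenius eigenvalues for almost all families in a Newton stratum
-/

set_option autoImplicit false

open Polynomial Filter NumberField

namespace Pool.Agent.V5helper90.NS

open Pool.Agent.W518.DN Pool.Agent.W518.TC

/-- The polynomials `P i` are obtained from irreducible polynomials `h i` of degree `g i` in
`π + q / π`, `q = p ^ a`, and for each `i` some automorphism of `ℂ` exchanges `π` and `q / π` for one pair of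
roots of `P i` and is the identity on all other roots of all `P k`. -/
def HasFlips {κ : Type} (p a : ℕ) (g : κ → ℕ) (P : κ → ℤ[X]) : Prop :=
  ∃ h : κ → ℤ[X], (∀ i, P i = lift ((p ^ a : ℕ) : ℤ) (g i) (h i)) ∧ (∀ i, (h i).Monic) ∧
    (∀ i, (h i).natDegree = g i) ∧ (∀ i, Irreducible ((h i).map (Int.castRingHom ℚ))) ∧
    ∀ i, ∃ (σ : ℂ ≃+* ℂ) (y0 : ℂ), ((h i).map (Int.castRingHom ℂ)).IsRoot y0 ∧
      ∀ k (π : ℂ), ((P k).map (Int.castRingHom ℂ)).IsRoot π →
        (π + ((p ^ a : ℕ) : ℂ) / π = y0 → σ π = ((p ^ a : ℕ) : ℂ) / π) ∧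
          (π + ((p ^ a : ℕ) : ℂ) / π ≠ y0 → σ π = π)

theorem flips_of_patterns {κ : Type} [Fintype κ] (p : ℕ) [hp : Fact p.Prime] (a : ℕ) (g : κ → ℕ)
    (h : κ → ℤ[X])
    (hm : ∀ i, (h i).Monic) (hd : ∀ i, (h i).natDegree = g i)
    (hirr : ∀ i, ∃ (l : ℕ) (_ : Fact l.Prime), Irreducible ((h i).map (Int.castRingHom (ZMod l))))
    (hfl : ∀ i0, ∃ (l : ℕ) (_ : Fact l.Prime), (((p ^ a : ℕ) : ℕ) : ZMod l) ≠ 0 ∧
      ∃ (y : ∀ i, Fin (g i) → ZMod l), (∀ i, Function.Injective (y i)) ∧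
        (∀ i, (h i).map (Int.castRingHom (ZMod l)) = ∏ t, (X - C (y i t))) ∧
        ∃ t0 : Fin (g i0), y i0 t0 ∈ goodB l ((p ^ a : ℕ) : ZMod l) ∧
          ∀ i t, (⟨i, t⟩ : Σ i, Fin (g i)) ≠ ⟨i0, t0⟩ → y i t ∈ goodA l ((p ^ a : ℕ) : ZMod l)) :
    HasFlips p a g fun i => lift ((p ^ a : ℕ) : ℤ) (g i) (h i) := by
  classical
  have hq : p ^ a ≠ 0 := pow_ne_zero _ hp.out.ne_zero
  have hirrQ : ∀ i, Irreducible ((h i).map (Int.castRingHom ℚ)) := by
    intro i
    obtain ⟨l, hl, hi⟩ := hirr i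
    have h1 : Irreducible (h i) := (hm i).irreducible_of_irreducible_map _ _ hi
    exact (IsPrimitive.Int.irreducible_iff_irreducible_map_cast (hm i).isPrimitive).1 h1
  have hPm : ∀ i, (lift ((p ^ a : ℕ) : ℤ) (g i) (h i)).Monic := fun i =>
    (lift_monic _ _ _ (hm i) (hd i)).1
  refine ⟨h, fun _ => rfl, hm, hd, hirrQ, ?_⟩
  set f : ℤ[X] := ∏ i, (lift ((p ^ a : ℕ) : ℤ) (g i) (h i) * h i) with hf
  have hfm : f.Monic := monic_prod_of_monic _ _ fun i _ => (hPm i).mul (hm i)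
  set PQ : ℚ[X] := f.map (Int.castRingHom ℚ) with hPQ
  have hLN : NumberField PQ.SplittingField :=
    { to_charZero := charZero_of_injective_algebraMap (algebraMap ℚ PQ.SplittingField).injective
      to_finiteDimensional := inferInstance }
  have hsf : IsSplittingField ℚ PQ.SplittingField PQ := Polynomial.IsSplittingField.splittingField PQ
  have hnormal : Normal ℚ PQ.SplittingField := Normal.of_isSplittingField PQ
  have hGal : IsGalois ℚ PQ.SplittingField := ⟨⟩
  have hsplit : (f.map (Int.castRingHom PQ.SplittingField)).Splits := by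
    have h1 := SplittingField.splits PQ
    convert h1 using 1
    rw [hPQ, Polynomial.map_map]; congr 1
  have hf0 : f.map (Int.castRingHom PQ.SplittingField) ≠ 0 := (hfm.map _).ne_zero
  have hsub : ∀ i, (((lift ((p ^ a : ℕ) : ℤ) (g i) (h i)) * h i).map
      (Int.castRingHom PQ.SplittingField)).Splits := by
    intro i
    refine hsplit.of_dvd hf0 ?_
    exact Polynomial.map_dvd _ (Finset.dvd_prod_of_mem _ (Finset.mem_univ i))
  have hPs : ∀ i, ((lift ((p ^ a : ℕ) : ℤ) (g i) (h i)).map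
      (Int.castRingHom PQ.SplittingField)).Splits :=
    fun i => (hsub i).of_dvd (((hPm i).mul (hm i)).map _).ne_zero
      (Polynomial.map_dvd _ (dvd_mul_right _ _))
  have hhs : ∀ i, ((h i).map (Int.castRingHom PQ.SplittingField)).Splits := fun i =>
    (hsub i).of_dvd (((hPm i).mul (hm i)).map _).ne_zero (Polynomial.map_dvd _ (dvd_mul_left _ _))
  obtain ⟨φ⟩ : Nonempty (PQ.SplittingField →+* ℂ) := inferInstance
  intro i0
  obtain ⟨l, hl, hql, y, hy, hhy, t0, hB, hA⟩ := hfl i0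
  obtain ⟨σ, y0, hy0, hσ⟩ := exists_flip (p ^ a) g h hm hd PQ.SplittingField hhs l hql y hy hhy i0
    t0 hB hA
  obtain ⟨τ, hτ⟩ := Pool.Agent.H977R3.CM.exists_aut φ (σ : PQ.SplittingField ≃+* PQ.SplittingField)
  have hcomp : ∀ Q : ℤ[X], Q.map (Int.castRingHom ℂ) =
      (Q.map (Int.castRingHom PQ.SplittingField)).map φ := by
    intro Q
    rw [Polynomial.map_map]; congr 1; exact RingHom.ext_int _ _
  refine ⟨τ, φ y0, ?_, ?_⟩
  · rw [hcomp]
    exact hy0.map
  · intro k π hπ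
    have h1 : π ∈ (((lift ((p ^ a : ℕ) : ℤ) (g k) (h k)).map
        (Int.castRingHom PQ.SplittingField)).map φ).roots := by
      rw [mem_roots (((hPm k).map _).map _).ne_zero, ← hcomp]
      exact hπ
    rw [(hPs k).roots_map] at h1
    obtain ⟨x, hx, rfl⟩ := Multiset.mem_map.1 h1
    have hx' := (mem_roots ((hPm k).map _).ne_zero).1 hx
    obtain ⟨h2, h3⟩ := hσ k x hx'
    have h4 : φ x + ((p ^ a : ℕ) : ℂ) / φ x = φ (x + ((p ^ a : ℕ) : PQ.SplittingField) / x) := by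
      rw [map_add, map_div₀, map_natCast]
    constructor
    · intro h5
      rw [h4] at h5
      rw [hτ]
      have h6 := h2 (φ.injective h5)
      have h7 : (σ : PQ.SplittingField ≃+* PQ.SplittingField) x = σ x := rfl
      rw [h7, h6, map_div₀, map_natCast]
    · intro h5
      rw [h4] at h5
      rw [hτ]
      have h6 := h3 (fun h => h5 (congrArg φ h))
      have h7 : (σ : PQ.SplittingField ≃+* PQ.SplittingField) x = σ x := rfl
      rw [h7, h6]

section final

variable {κ : Type} [Fintype κ] [DecidableEq κ] (g : κ → ℕ) (s : ∀ i, Fin (g i) → ℚ)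
  (p : ℕ) [hp : Fact p.Prime]

/-- Good points. -/
theorem flips_of_hits (a : ℕ) (hg : ∀ i, 1 ≤ g i) (b : (Σ i, Fin (g i)) → ℤ)
    (T : Finset Nat.Primes) (hT : ∀ l ∈ T, (l : ℕ) ≠ p)
    (h : ∀ c : κ ⊕ κ, ∃ l ∈ T, (fun j => ((b j : ℤ) : ZMod (l : ℕ))) ∈ SS' g s p a c l) :
    HasFlips p a g (Psi g s p a b) := by
  classical
  set B : (Σ i, Fin (g i)) → ℤ := fun j => (p : ℤ) ^ Eexp g s a j * b j with hB
  have hmap : ∀ (l : Nat.Primes) (i : κ), (hTup g B i).map (Int.castRingHom (ZMod (l : ℕ))) =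
      Pool.Agent.W518.DN.hp (fun t : Fin (g i) =>
        (p : ZMod (l : ℕ)) ^ Eexp g s a ⟨i, t⟩ * ((b ⟨i, t⟩ : ℤ) : ZMod (l : ℕ))) := by
    intro l i
    rw [hTup, hp_map]
    congr 1
    funext t
    simp [hB]
  have hmem : ∀ c : κ ⊕ κ, ∃ l ∈ T, ∀ i, (fun t : Fin (g i) => (p : ZMod ((l : Nat.Primes) : ℕ)) ^
      Eexp g s a ⟨i, t⟩ * ((b ⟨i, t⟩ : ℤ) : ZMod (l : ℕ))) ∈ pat g (p ^ a) (l : ℕ) c i := by
    intro c
    obtain ⟨l, hl, hlm⟩ := h c
    refine ⟨l, hl, ?_⟩
    rw [SS', Finset.mem_filter] at hlm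
    have := hlm.2
    rw [patSet, Finset.mem_filter] at this
    exact this.2
  refine flips_of_patterns p a g (hTup g B) (fun i => hp_monic _) (fun i => hp_natDegree _) ?_ ?_
  · intro i
    obtain ⟨l, hl, hlm⟩ := hmem (Sum.inl i)
    refine ⟨(l : ℕ), inferInstance, ?_⟩
    have h1 := hlm i
    simp only [pat, if_true] at h1
    rw [hmap l i]
    exact (Finset.mem_filter.1 h1).2
  · intro i0
    obtain ⟨l, hl, hlm⟩ := hmem (Sum.inr i0)
    have hpl : ((p ^ a : ℕ) : ZMod (l : ℕ)) ≠ 0 := by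
      push_cast
      apply pow_ne_zero
      intro h0
      rw [ZMod.natCast_eq_zero_iff] at h0
      rcases (Nat.dvd_prime hp.out).1 h0 with h1 | h1
      · exact l.2.one_lt.ne' h1
      · exact hT l hl h1
    refine ⟨(l : ℕ), inferInstance, hpl, ?_⟩
    have h2 : ∀ i, ∃ y : Fin (g i) → ZMod (l : ℕ), Function.Injective y ∧
        (∀ t : Fin (g i), y t ∈ (if i = i0 ∧ (t : ℕ) = 0 then goodB (l : ℕ) ((p ^ a : ℕ) : ZMod (l : ℕ))
          else goodA (l : ℕ) ((p ^ a : ℕ) : ZMod (l : ℕ)))) ∧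
        (hTup g B i).map (Int.castRingHom (ZMod (l : ℕ))) = ∏ t, (X - C (y t)) := by
      intro i
      have h1 := hlm i
      simp only [pat] at h1
      rw [Pool.Agent.W518.DN.rootSet, Finset.mem_filter] at h1
      obtain ⟨_, y, hy1, hy2, hy3⟩ := h1
      exact ⟨y, hy1, hy2, by rw [hmap l i]; exact hy3⟩
    choose y hy1 hy2 hy3 using h2
    refine ⟨y, hy1, hy3, ⟨0, hg i0⟩, ?_, ?_⟩
    · have := hy2 i0 ⟨0, hg i0⟩
      rwa [if_pos ⟨rfl, rfl⟩] at this
    · intro i t hne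
      have := hy2 i t
      rwa [if_neg ?_] at this
      rintro ⟨rfl, h0⟩
      apply hne
      congr 1
      exact Fin.ext h0

/-- **Density one in every Newton stratum.** -/
theorem density_flips (hg : ∀ i, 1 ≤ g i) (hs : ∀ i, IsNewton (s i)) (hss : ∀ i, ∃ j, s i j < 1 / 2)
    [Nonempty κ] (N0 : ℕ) (ε : ℝ) (hε : 0 < ε) :
    ∃ a0 : ℕ, ∀ a, a0 ≤ a → (Stratum g s p a).Finite ∧ N0 ≤ (Stratum g s p a).ncard ∧
      (({P ∈ Stratum g s p a | ¬ HasFlips p a g P}.ncard : ℕ) : ℝ) ≤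
        ε * (Stratum g s p a).ncard := by
  classical
  have hp2 := hp.out.two_le
  have hppos : (0 : ℝ) < p := by exact_mod_cast hp.out.pos
  set G : ℕ := ∑ i, g i with hG
  have hgG : ∀ i, g i ≤ G := fun i => Finset.single_le_sum (fun _ _ => Nat.zero_le _)
    (Finset.mem_univ i)
  set KK : ℝ := 2 * 4 ^ G + 1 with hKK
  have hKKpos : 0 < KK := by positivity
  set nJ := Fintype.card (Σ i, Fin (g i)) with hnJ
  set c0 : ℝ := (∏ i, ((4 * g i : ℕ) ^ g i : ℝ))⁻¹ with hc0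
  have hprod1 : (1 : ℝ) ≤ ∏ i, ((4 * g i : ℕ) ^ g i : ℝ) := by
    have h1 : (1 : ℝ) = ∏ _i : κ, (1 : ℝ) := by simp
    rw [h1]
    refine Finset.prod_le_prod (fun _ _ => zero_le_one) fun i _ => ?_
    have h2 : 1 ≤ (4 * g i) ^ g i := Nat.one_le_pow _ _ (by have := hg i; omega)
    exact_mod_cast h2
  have hc0pos : 0 < c0 := by rw [hc0]; positivity
  have hc01 : c0 ≤ 1 := inv_le_one_of_one_le₀ hprod1
  set A : ℝ := ∏ j : (Σ i, Fin (g i)), (del (g j.1) / p) with hA
  have hApos : 0 < A := Finset.prod_pos fun j _ => div_pos (del_pos (hg j.1)) hppos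
  set C1 : ℝ := (Fintype.card (κ ⊕ κ) : ℝ) * KK ^ nJ + 1 with hC1
  have hC1pos : 0 < C1 := by positivity
  obtain ⟨N, hN⟩ := exists_pow_lt_of_lt_one (show 0 < ε * A / C1 by positivity)
    (show 1 - c0 < 1 by linarith)
  obtain ⟨T, hTc, hT⟩ := exists_primes p N (4 * G + 8)
  set M : ℕ := ∏ l ∈ T, (l : ℕ) with hM
  -- the threshold
  set R : (Σ i, Fin (g i)) → ℝ := fun j => (M : ℝ) + p * (N0 + 1) / del (g j.1) with hR
  choose a1 ha1 using fun j => Ysz_large g s p hs hss (R j) j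
  refine ⟨(∑ j, a1 j) + 1, fun a ha => ?_⟩
  have ha0 : 0 < a := by omega
  have hY : ∀ j, R j ≤ Ysz g s p a j := fun j => ha1 j a
    ((Finset.single_le_sum (fun _ _ => Nat.zero_le _) (Finset.mem_univ j)).trans (by omega))
  have hRM : ∀ j, (M : ℝ) ≤ R j := fun j => by
    have := del_pos (hg j.1)
    rw [hR]; simp only; have : 0 ≤ (p : ℝ) * (N0 + 1) / del (g j.1) := by positivity
    linarith
  have hRd : ∀ j, (p : ℝ) * (N0 + 1) ≤ del (g j.1) * Ysz g s p a j := fun j => by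
    have hd := del_pos (hg j.1)
    have h1 : (p : ℝ) * (N0 + 1) / del (g j.1) ≤ Ysz g s p a j := by
      refine le_trans ?_ (hY j)
      rw [hR]; simp only; linarith [Nat.cast_nonneg (α := ℝ) M]
    rw [div_le_iff₀ hd] at h1
    linarith
  have hYd : ∀ j, (p : ℝ) ≤ del (g j.1) * Ysz g s p a j := fun j => by
    refine le_trans ?_ (hRd j)
    have : (0 : ℝ) ≤ N0 := Nat.cast_nonneg _
    nlinarith
  have hYpos : ∀ j, 0 < Ysz g s p a j := fun j => by
    have hd := del_pos (hg j.1)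
    have h1 := hppos.trans_le (hYd j)
    exact (pos_iff_pos_of_mul_pos h1).1 hd
  have hlow := Stratum_lower g s p ha0 hs hg hYd
  have hfin := Stratum_finite g s p ha0 hs
  refine ⟨hfin, ?_, ?_⟩
  · -- the number of elements
    obtain ⟨i0⟩ := (inferInstance : Nonempty κ)
    have h1 : (N0 : ℝ) ≤ ∏ j : (Σ i, Fin (g i)), (del (g j.1) / p * Ysz g s p a j) := by
      have hone : ∀ j : (Σ i, Fin (g i)), (N0 : ℝ) + 1 ≤ del (g j.1) / p * Ysz g s p a j := by
        intro j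
        rw [div_mul_eq_mul_div, le_div_iff₀ hppos]
        linarith [hRd j]
      let j0 : Σ i, Fin (g i) := ⟨i0, ⟨0, hg i0⟩⟩
      rw [← Finset.mul_prod_erase _ _ (Finset.mem_univ j0)]
      have h2 : (1 : ℝ) ≤ ∏ j ∈ Finset.univ.erase j0, (del (g j.1) / p * Ysz g s p a j) := by
        have h3 : (1 : ℝ) = ∏ _j ∈ Finset.univ.erase j0, (1 : ℝ) := by simp
        rw [h3]
        refine Finset.prod_le_prod (fun _ _ => zero_le_one) fun j _ => ?_
        have := hone j
        have : (0 : ℝ) ≤ N0 := Nat.cast_nonneg _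
        linarith
      have h4 := hone j0
      have h5 : (0 : ℝ) ≤ N0 := Nat.cast_nonneg _
      nlinarith
    exact_mod_cast h1.trans hlow
  · -- the bad elements
    let X' : κ ⊕ κ → Finset ((Σ i, Fin (g i)) → ℤ) := fun c =>
      (Fintype.piFinset fun j => Finset.Icc (-(box2 g s p a j : ℤ)) (box2 g s p a j)).filter
        (fun b : (Σ i, Fin (g i)) → ℤ => ∀ l ∈ T, (fun j => ((b j : ℤ) : ZMod (l : ℕ))) ∉
          SS' g s p a c l)
    have hbad : {P ∈ Stratum g s p a | ¬ HasFlips p a g P} ⊆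
        ((Finset.univ.biUnion fun c => (X' c).image (Psi g s p a) : Finset (κ → ℤ[X])) :
          Set (κ → ℤ[X])) := by
      rintro P ⟨hP, hPbad⟩
      obtain ⟨b, hb, rfl⟩ := exists_of_mem_Stratum g s p ha0 hs hP
      by_contra hcon
      apply hPbad
      refine flips_of_hits g s p a hg b T (fun l hl => (hT l hl).2) fun c => ?_
      by_contra hc
      push Not at hc
      apply hcon
      rw [Finset.mem_coe, Finset.mem_biUnion]
      exact ⟨c, Finset.mem_univ _, Finset.mem_image_of_mem _ (Finset.mem_filter.2 ⟨hb, hc⟩)⟩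
    have hXc : ∀ c, ((X' c).card : ℝ) ≤ (1 - c0) ^ N * (KK ^ nJ * ∏ j, Ysz g s p a j) := by
      intro c
      have h1 := sieve (box2 g s p a) T (fun l => SS' g s p a c l) c0 hc01 (by
        intro l hl
        exact SS'_card g s p a c l hg (fun i => by
          have := (hT l hl).1; have := hgG i; omega) (hT l hl).2)
      refine h1.trans ?_
      rw [hTc]
      refine mul_le_mul_of_nonneg_left ?_ (pow_nonneg (by linarith) _)
      have h2 : KK ^ nJ * ∏ j, Ysz g s p a j = ∏ j, (KK * Ysz g s p a j) := by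
        rw [Finset.prod_mul_distrib]; simp [hnJ]
      rw [h2]
      refine Finset.prod_le_prod (fun j _ => by positivity) fun j _ => ?_
      have hYj := hYpos j
      have h3 : (box2 g s p a j : ℝ) ≤ 4 ^ G * Ysz g s p a j := by
        refine (Nat.floor_le (by positivity)).trans ?_
        refine mul_le_mul_of_nonneg_right ?_ hYj.le
        have h4 : (2 : ℝ) ^ (g j.1 - (j.2 : ℕ)) ≤ 2 ^ G :=
          pow_le_pow_right₀ (by norm_num) ((Nat.sub_le _ _).trans (hgG j.1))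
        have h5 : ((g j.1).choose j.2 : ℝ) ≤ 2 ^ G := by
          have h6 : (g j.1).choose j.2 ≤ 2 ^ g j.1 := Nat.choose_le_two_pow _ _
          have h7 : (2 : ℕ) ^ g j.1 ≤ 2 ^ G := Nat.pow_le_pow_right (by norm_num) (hgG j.1)
          exact_mod_cast h6.trans h7
        calc _ ≤ (2 : ℝ) ^ G * 2 ^ G := mul_le_mul h4 h5 (by positivity) (by positivity)
          _ = 4 ^ G := by rw [← mul_pow]; norm_num
      have h4 : ((∏ l ∈ T, (l : ℕ) : ℕ) : ℝ) ≤ Ysz g s p a j := (hRM j).trans (hY j)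
      calc _ ≤ 2 * (4 ^ G * Ysz g s p a j) + Ysz g s p a j := by linarith
        _ = KK * Ysz g s p a j := by rw [hKK]; ring
    have hcard : (({P ∈ Stratum g s p a | ¬ HasFlips p a g P}.ncard : ℕ) : ℝ) ≤
        (Fintype.card (κ ⊕ κ) : ℝ) * ((1 - c0) ^ N * (KK ^ nJ * ∏ j, Ysz g s p a j)) := by
      have h1 : ({P ∈ Stratum g s p a | ¬ HasFlips p a g P}.ncard : ℕ) ≤ ∑ c, (X' c).card := by
        refine (Set.ncard_le_ncard hbad (Finset.finite_toSet _)).trans ?_
        rw [Set.ncard_coe_finset]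
        refine Finset.card_biUnion_le.trans (Finset.sum_le_sum fun c _ => Finset.card_image_le)
      calc (({P ∈ Stratum g s p a | ¬ HasFlips p a g P}.ncard : ℕ) : ℝ)
          ≤ ∑ c, ((X' c).card : ℝ) := by exact_mod_cast h1
        _ ≤ ∑ _c : κ ⊕ κ, ((1 - c0) ^ N * (KK ^ nJ * ∏ j, Ysz g s p a j)) :=
            Finset.sum_le_sum fun c _ => hXc c
        _ = _ := by rw [Finset.sum_const, Finset.card_univ, nsmul_eq_mul]
    refine hcard.trans ?_
    have hlow' : A * ∏ j, Ysz g s p a j ≤ ((Stratum g s p a).ncard : ℝ) := by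
      rw [hA, ← Finset.prod_mul_distrib]; exact hlow
    have hYprod : 0 < ∏ j, Ysz g s p a j := Finset.prod_pos fun j _ => hYpos j
    have h1 : (Fintype.card (κ ⊕ κ) : ℝ) * ((1 - c0) ^ N * (KK ^ nJ * ∏ j, Ysz g s p a j)) ≤
        C1 * (1 - c0) ^ N * ∏ j, Ysz g s p a j := by
      have h2 : 0 ≤ (1 - c0) ^ N := pow_nonneg (by linarith) _
      have h3 : 0 ≤ (1 - c0) ^ N * ∏ j, Ysz g s p a j := mul_nonneg h2 hYprod.le
      rw [hC1]
      nlinarith
    have h2 : C1 * (1 - c0) ^ N ≤ ε * A := by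
      rw [lt_div_iff₀ hC1pos] at hN
      linarith
    calc _ ≤ C1 * (1 - c0) ^ N * ∏ j, Ysz g s p a j := h1
      _ ≤ ε * A * ∏ j, Ysz g s p a j := mul_le_mul_of_nonneg_right h2 hYprod.le
      _ = ε * (A * ∏ j, Ysz g s p a j) := by ring
      _ ≤ _ := mul_le_mul_of_nonneg_left hlow' hε.le

end final

end Pool.Agent.V5helper90.NS
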