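import Mathlib
import Pool.Agent.V5helper90.NS.Flips
import Pool.Agent.H884R2.Sko.Split

/-!
# Flips of Frobenius eigenvalues which fix a number field, for almost all families in a Newton stratum
-/

set_option autoImplicit false

open Polynomial Filter NumberField

namespace Pool.Agent.V5helper90.NS

open Pool.Agent.W518.DN Pool.Agent.W518.TC

/-- A Frobenius element fixes the roots of a polynomial which splits modulo `l`. -/
theorem fix_of_frob (D : ℤ[X]) (hDm : D.Monic) (A B : ℤ[X]) (c : ℤ)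
    (hD : A * D + B * derivative D = C c) (L : Type) [Field L] [NumberField L]
    (l : ℕ) [hl : Fact l.Prime] (hcl : (c : ZMod l) ≠ 0)
    (hDl : (D.map (Int.castRingHom (ZMod l))).Splits) {k : Type} [Field k] (j : ZMod l →+* k)
    (f : 𝓞 L →+* k) (σ : L ≃ₐ[ℚ] L)
    (hσf : ∀ x : 𝓞 L, ∃ x' : 𝓞 L, (x' : L) = σ (x : L) ∧ f x' = f x ^ l) (x : L)
    (hx : (D.map (Int.castRingHom L)).IsRoot x) : σ x = x := by
  classical
  have hint : IsIntegral ℤ x := by
    refine ⟨D, hDm, ?_⟩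
    rw [IsRoot.def, eval_map] at hx
    have h0 : algebraMap ℤ L = Int.castRingHom L := RingHom.ext_int _ _
    rw [h0]; exact hx
  set a : 𝓞 L := ⟨x, hint⟩ with ha
  have hax : (a : L) = x := rfl
  obtain ⟨b, hb, hfb⟩ := hσf a
  -- both are roots in the ring of integers
  have hroot : ∀ z : 𝓞 L, (D.map (Int.castRingHom L)).IsRoot (z : L) →
      (D.map (Int.castRingHom (𝓞 L))).IsRoot z := by
    intro z hz
    rw [IsRoot.def] at hz ⊢
    apply RingOfIntegers.coe_injective
    rw [map_zero]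
    have h1 : (D.map (Int.castRingHom L)) = (D.map (Int.castRingHom (𝓞 L))).map
        (algebraMap (𝓞 L) L) := by
      rw [Polynomial.map_map]; congr 1
    rw [h1, eval_map, eval₂_at_apply] at hz
    exact hz
  have hDa := hroot a (by rw [hax]; exact hx)
  have hDb : (D.map (Int.castRingHom (𝓞 L))).IsRoot b := by
    apply hroot
    rw [hb, hax]
    have h2 : (D.map (Int.castRingHom L)) = (D.map (Int.castRingHom L)).map (σ : L →+* L) := by
      rw [Polynomial.map_map]; congr 1; exact RingHom.ext_int _ _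
    rw [h2]
    exact hx.map
  -- they have the same reduction
  have hfa : f a ^ l = f a := by
    have h1 : (D.map (Int.castRingHom k)).IsRoot (f a) := by
      have h2 : D.map (Int.castRingHom k) = (D.map (Int.castRingHom (𝓞 L))).map f := by
        rw [Polynomial.map_map]; congr 1; exact RingHom.ext_int _ _
      rw [h2]
      exact hDa.map
    have h3 : D.map (Int.castRingHom k) = (D.map (Int.castRingHom (ZMod l))).map j := by
      rw [Polynomial.map_map]; congr 1; exact RingHom.ext_int _ _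
    rw [h3] at h1
    obtain ⟨u, hu⟩ := hDl.mem_range_of_isRoot (hDm.map _).ne_zero (i := j) (x := f a) h1
    rw [← hu, ← map_pow, ZMod.pow_card]
  have hfab : f a = f b := by rw [hfb, hfa]
  have hab : b = a := by
    by_contra hne
    obtain ⟨E0, hE0⟩ := dvd_iff_isRoot.2 hDa
    have h1 : eval b E0 = 0 := by
      have h2 : eval b (D.map (Int.castRingHom (𝓞 L))) = 0 := hDb
      rw [hE0, eval_mul, eval_sub, eval_X, eval_C] at h2
      exact (mul_eq_zero.1 h2).resolve_left (sub_ne_zero.2 hne)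
    have h2 : eval a (derivative (D.map (Int.castRingHom (𝓞 L)))) = eval a E0 := by
      rw [hE0, derivative_mul, derivative_sub, derivative_X, derivative_C, sub_zero, one_mul,
        eval_add, eval_mul, eval_sub, eval_X, eval_C, sub_self, zero_mul, add_zero]
    have h3 : f (eval a E0) = 0 := by
      rw [← eval₂_hom, ← eval_map, hfab, eval_map, eval₂_hom, h1, map_zero]
    have h4 : f ((c : ℤ) : 𝓞 L) = 0 := by
      have h5 := congrArg (fun P : ℤ[X] => eval a (P.map (Int.castRingHom (𝓞 L)))) hD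
      simp only [Polynomial.map_add, Polynomial.map_mul, map_C, eval_add, eval_mul, eval_C] at h5
      rw [← derivative_map, h2, show eval a (D.map (Int.castRingHom (𝓞 L))) = 0 from hDa,
        mul_zero, zero_add] at h5
      have h6 : ((c : ℤ) : 𝓞 L) = (Int.castRingHom (𝓞 L)) c := rfl
      rw [h6, ← h5, map_mul, h3, mul_zero]
    apply hcl
    apply j.injective
    rw [map_intCast, map_zero]
    rw [map_intCast] at h4
    exact h4
  rw [← hax, ← hb, hab]

/-- A Frobenius element flips exactly one pair of roots, and fixes the roots of a polynomial which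
splits modulo `l` (this is the proof of `Pool.Agent.W518.DN.exists_flip`, with one addition). -/
theorem exists_flip_fix {κ : Type} (D : ℤ[X]) (hDm : D.Monic) (A B : ℤ[X]) (c : ℤ)
    (hD : A * D + B * derivative D = C c) (q : ℕ) (g : κ → ℕ) (h : κ → ℤ[X]) (hm : ∀ i, (h i).Monic)
    (hd : ∀ i, (h i).natDegree = g i)
    (L : Type) [Field L] [NumberField L] [IsGalois ℚ L]
    (hs : ∀ i, ((h i).map (Int.castRingHom L)).Splits)
    (l : ℕ) [hl : Fact l.Prime] (hql : (q : ZMod l) ≠ 0) (hcl : (c : ZMod l) ≠ 0)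
    (hDl : (D.map (Int.castRingHom (ZMod l))).Splits)
    (y : ∀ i, Fin (g i) → ZMod l) (hy : ∀ i, Function.Injective (y i))
    (hhy : ∀ i, (h i).map (Int.castRingHom (ZMod l)) = ∏ t, (X - C (y i t)))
    (i0 : κ) (t0 : Fin (g i0)) (hB : y i0 t0 ∈ goodB l q)
    (hA : ∀ i t, (⟨i, t⟩ : Σ i, Fin (g i)) ≠ ⟨i0, t0⟩ → y i t ∈ goodA l q) :
    ∃ (σ : L ≃ₐ[ℚ] L) (y0 : L), ((h i0).map (Int.castRingHom L)).IsRoot y0 ∧
      (∀ i (π : L), ((lift (q : ℤ) (g i) (h i)).map (Int.castRingHom L)).IsRoot π →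
        (π + q / π = y0 → σ π = q / π) ∧ (π + q / π ≠ y0 → σ π = π)) ∧
      ∀ x : L, (D.map (Int.castRingHom L)).IsRoot x → σ x = x := by
  classical
  obtain ⟨Q, hQ, hlQ, σ, hσ⟩ := exists_frob L l
  let _ : Field (𝓞 L ⧸ Q) := Ideal.Quotient.field Q
  let f : 𝓞 L →+* (𝓞 L ⧸ Q) := Ideal.Quotient.mk Q
  have hσf : ∀ x : 𝓞 L, ∃ x' : 𝓞 L, (x' : L) = σ (x : L) ∧ f x' = f x ^ l := hσ
  have hq0 : (q : L) ≠ 0 := by
    intro h0
    apply hql
    have : q = 0 := by exact_mod_cast h0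
    rw [this]; simp
  have hchar : CharP (𝓞 L ⧸ Q) l := by
    obtain ⟨c, hc⟩ := CharP.exists (𝓞 L ⧸ Q)
    have h1 : ((l : ℕ) : 𝓞 L ⧸ Q) = 0 := by
      have : f (l : 𝓞 L) = 0 := Ideal.Quotient.eq_zero_iff_mem.2 hlQ
      rwa [map_natCast] at this
    have h2 : c ∣ l := (CharP.cast_eq_zero_iff _ c l).1 h1
    rcases (Nat.dvd_prime hl.out).1 h2 with h3 | h3
    · subst h3
      exact absurd rfl (CharP.char_ne_one (𝓞 L ⧸ Q) 1)
    · subst h3; exact hc
  let j : ZMod l →+* (𝓞 L ⧸ Q) := ZMod.castHom dvd_rfl _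
  have hjinj : Function.Injective j := j.injective
  have hjq : j (q : ZMod l) = f (q : 𝓞 L) := by rw [map_natCast, map_natCast]
  -- reductions of the roots
  choose R hRL hRk using fun i => roots_reduction (h i) (hm i) (hs i) f
  have hRk' : ∀ i, (R i).map f = Finset.univ.val.map fun t => j (y i t) := by
    intro i
    rw [← hRk i]
    have h1 : (h i).map (Int.castRingHom (𝓞 L ⧸ Q)) = ∏ t, (X - C (j (y i t))) := by
      have h2 : Int.castRingHom (𝓞 L ⧸ Q) = j.comp (Int.castRingHom (ZMod l)) :=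
        RingHom.ext_int _ _
      rw [h2, ← Polynomial.map_map, hhy, Polynomial.map_prod]
      simp
    rw [h1]
    have h2 : (∏ t, (X - C (j (y i t))) : (𝓞 L ⧸ Q)[X])
        = ((Finset.univ.val.map fun t => j (y i t)).map fun x => X - C x).prod := by
      rw [Multiset.map_map]; rfl
    rw [h2, roots_multiset_prod_X_sub_C]
  have hnodup : ∀ i, ((R i).map f).Nodup := by
    intro i
    rw [hRk']
    exact Finset.univ.nodup.map (hjinj.comp (hy i))
  have hinj : ∀ i, ∀ a ∈ R i, ∀ b ∈ R i, f a = f b → a = b := by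
    intro i a ha b hb hab
    exact Multiset.inj_on_of_nodup_map (hnodup i) a ha b hb hab
  have hmemR : ∀ i (b : 𝓞 L), b ∈ R i ↔ ((h i).map (Int.castRingHom L)).IsRoot (b : L) := by
    intro i b
    rw [← mem_roots ((hm i).map _).ne_zero, ← hRL, Multiset.mem_map]
    constructor
    · intro hb; exact ⟨b, hb, rfl⟩
    · rintro ⟨b', hb', e⟩
      rwa [RingOfIntegers.coe_injective e] at hb'
  -- the special root
  obtain ⟨b0, hb0, hb0y⟩ : ∃ b0 ∈ R i0, f b0 = j (y i0 t0) := by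
    have : j (y i0 t0) ∈ (R i0).map f := by
      rw [hRk']
      exact Multiset.mem_map_of_mem _ (Finset.mem_univ t0)
    exact Multiset.mem_map.1 this
  refine ⟨σ, (b0 : L), (hmemR i0 b0).1 hb0, ?_, fun x hx =>
    fix_of_frob D hDm A B c hD L l hcl hDl j f σ hσf x hx⟩
  intro i π hπ
  have hPm : (lift (q : ℤ) (g i) (h i)).Monic := (lift_monic _ _ _ (hm i) (hd i)).1
  have hmapL : (lift (q : ℤ) (g i) (h i)).map (Int.castRingHom L)
      = lift (q : L) (g i) ((h i).map (Int.castRingHom L)) := by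
    rw [lift_map]; simp
  have hdL : ((h i).map (Int.castRingHom L)).natDegree ≤ g i := by
    rw [(hm i).natDegree_map, hd]
  have hπ0 : π ≠ 0 := by
    rintro rfl
    rw [hmapL, IsRoot.def, lift_eval_zero] at hπ
    have h1 : ((h i).map (Int.castRingHom L)).coeff (g i) = 1 := by
      rw [coeff_map, ← hd i, (hm i).coeff_natDegree, map_one]
    rw [h1, one_mul] at hπ
    exact pow_ne_zero _ hq0 hπ
  have hπ'0 : (q : L) / π ≠ 0 := div_ne_zero hq0 hπ0
  have hyroot : ((h i).map (Int.castRingHom L)).IsRoot (π + q / π) := by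
    rw [hmapL, IsRoot.def, lift_eval _ _ _ hdL π hπ0] at hπ
    exact (mul_eq_zero.1 hπ).resolve_left (pow_ne_zero _ hπ0)
  have hπ'root : ((lift (q : ℤ) (g i) (h i)).map (Int.castRingHom L)).IsRoot (q / π) := by
    rw [hmapL, IsRoot.def, lift_eval _ _ _ hdL _ hπ'0]
    have : (q : L) / π + q / (q / π) = π + q / π := by field_simp; ring
    rw [this, hyroot.eq_zero, mul_zero]
  have hint : ∀ x : L, ((lift (q : ℤ) (g i) (h i)).map (Int.castRingHom L)).IsRoot x →
      ∃ x' : 𝓞 L, (x' : L) = x := by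
    intro x hx
    have : IsIntegral ℤ x := by
      refine ⟨_, hPm, ?_⟩
      rw [IsRoot.def, eval_map] at hx
      have h0 : algebraMap ℤ L = Int.castRingHom L := RingHom.ext_int _ _
      rw [h0]; exact hx
    exact ⟨⟨x, this⟩, rfl⟩
  obtain ⟨a, ha⟩ := hint _ hπ
  obtain ⟨a', ha'⟩ := hint _ hπ'root
  have hprod : a * a' = (q : 𝓞 L) := by
    apply RingOfIntegers.ext
    rw [show ((a * a' : 𝓞 L) : L) = (a : L) * (a' : L) from rfl, ha, ha',
      show (((q : ℕ) : 𝓞 L) : L) = (q : L) from rfl]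
    field_simp
  set b : 𝓞 L := a + a' with hb
  have hbL : (b : L) = π + q / π := by
    rw [hb, show ((a + a' : 𝓞 L) : L) = (a : L) + (a' : L) from rfl, ha, ha']
  have hbR : b ∈ R i := by rw [hmemR, hbL]; exact hyroot
  obtain ⟨t, ht⟩ : ∃ t, j (y i t) = f b := by
    have : f b ∈ (R i).map f := Multiset.mem_map_of_mem _ hbR
    rw [hRk'] at this
    obtain ⟨t, _, ht⟩ := Multiset.mem_map.1 this
    exact ⟨t, ht⟩
  have hfsum : f a + f a' = j (y i t) := by rw [ht, hb, map_add]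
  have hfprod : f a * f a' = j (q : ZMod l) := by rw [← map_mul, hprod, hjq]
  have hfix : ∀ x : ZMod l, j x ^ l = j x := by
    intro x; rw [← map_pow, ZMod.pow_card]
  -- `σ` fixes `π + q / π`
  have hσb : σ (π + q / π) = π + q / π := by
    obtain ⟨b', hb', hfb'⟩ := hσf b
    have h1 : ((h i).map (Int.castRingHom L)).IsRoot (b' : L) := by
      rw [hb', hbL]
      have h2 : ((h i).map (Int.castRingHom L)) = ((h i).map (Int.castRingHom L)).map
          (σ : L →+* L) := by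
        rw [Polynomial.map_map]; congr 1; exact RingHom.ext_int _ _
      rw [h2]
      exact hyroot.map
    have h2 : b' = b := by
      apply hinj i b' ((hmemR i b').2 h1) b hbR
      rw [hfb', ← ht, hfix]
    rw [← hbL, ← hb', h2]
  have hσq : σ (q : L) = q := map_natCast σ q
  have hσπ : σ π = π ∨ σ π = q / π := by
    have h1 : (σ π - π) * (σ π - q / π) = 0 := by
      have h2 : π ^ 2 - (π + q / π) * π + q = 0 := by field_simp; ring
      have h3 := congrArg σ h2
      rw [map_add, map_sub, map_pow, map_mul, hσb, hσq, map_zero] at h3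
      have h4 : (σ π - π) * (σ π - q / π) = σ π ^ 2 - (π + q / π) * σ π + q := by
        field_simp; ring
      rw [h4, h3]
    rcases mul_eq_zero.1 h1 with h2 | h2
    · left; exact sub_eq_zero.1 h2
    · right; exact sub_eq_zero.1 h2
  obtain ⟨a'', ha'', hfa''⟩ := hσf a
  rw [ha] at ha''
  -- the two cases
  have hcaseA : y i t ∈ goodA l q → σ π = π := by
    intro hAt
    obtain ⟨u, hu, huy⟩ := Finset.mem_image.1 hAt
    have hu' := (Finset.mem_filter.1 hu).2
    have h1 : (f a - j u) * (f a - j (q / u)) = 0 := by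
      have h2 : j (y i t) = j u + j (q / u) := by rw [← map_add, huy]
      have h3 : j u * j (q / u) = j (q : ZMod l) := by
        rw [← map_mul, mul_div_cancel₀ _ hu'.1]
      have h4 : (f a - j u) * (f a - j (q / u))
          = f a * f a - (j u + j (q / u)) * f a + j u * j (q / u) := by ring
      rw [h4, h3, ← h2, ← hfsum, ← hfprod]; ring
    have hne : (u : ZMod l) ≠ q / u := by
      intro h2; apply hu'.2; rw [sq]; exact (eq_div_iff hu'.1).1 h2
    have h5 : f a ^ l = f a ∧ f a ≠ f a' := by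
      rcases mul_eq_zero.1 h1 with h2 | h2
      · have h3 : f a = j u := sub_eq_zero.1 h2
        have h4 : f a' = j (q / u) := by
          have : f a' = j (y i t) - f a := by rw [← hfsum]; ring
          rw [this, h3, ← huy, map_add]; ring
        refine ⟨by rw [h3, hfix], ?_⟩
        rw [h3, h4]; exact fun h => hne (hjinj h)
      · have h3 : f a = j (q / u) := sub_eq_zero.1 h2
        have h4 : f a' = j u := by
          have : f a' = j (y i t) - f a := by rw [← hfsum]; ring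
          rw [this, h3, ← huy, map_add]; ring
        refine ⟨by rw [h3, hfix], ?_⟩
        rw [h3, h4]; exact fun h => hne (hjinj h).symm
    rcases hσπ with h6 | h6
    · exact h6
    · exfalso
      apply h5.2
      have h7 : a'' = a' := by
        apply RingOfIntegers.ext
        rw [ha'', h6, ha']
      rw [← h5.1, ← hfa'', h7]
  have hcaseB : y i t ∈ goodB l q → σ π = q / π := by
    intro hBt
    rcases hσπ with h6 | h6
    swap
    · exact h6
    · exfalso
      have h7 : a'' = a := by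
        apply RingOfIntegers.ext
        rw [ha'', h6, ha]
      rw [h7] at hfa''
      obtain ⟨v, hv⟩ := fixed_of_pow j (f a) hfa''.symm
      have hv0 : v ≠ 0 := by
        rintro rfl
        rw [map_zero] at hv
        rw [← hv, zero_mul] at hfprod
        exact hql (hjinj (by rw [← hfprod, map_zero]))
      have h8 : f a' = j (q / v) := by
        have h9 : j v * f a' = j v * j (q / v) := by
          rw [hv, hfprod, ← hv, ← map_mul, mul_div_cancel₀ _ hv0]
        exact mul_left_cancel₀ (by rw [Ne, map_eq_zero]; exact hv0) h9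
      have h9 : y i t = v + q / v := by
        apply hjinj
        rw [← hfsum, h8, ← hv, map_add]
      rw [goodB, Finset.mem_sdiff] at hBt
      apply hBt.2
      rw [h9]
      exact Finset.mem_image.2 ⟨v, by simp [hv0], rfl⟩
  refine ⟨fun h1 => hcaseB ?_, fun h1 => hcaseA (hA i t ?_)⟩
  · have h2 : b = b0 := by
      apply RingOfIntegers.ext
      rw [hbL, h1]
    have h3 : y i t = y i0 t0 := by
      apply hjinj
      rw [ht, h2, hb0y]
    rw [h3]; exact hB
  · intro h2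
    apply h1
    obtain ⟨rfl, h3⟩ := Sigma.mk.inj_iff.1 h2
    have h4 : t = t0 := eq_of_heq h3
    have h5 : b = b0 := by
      apply hinj i b hbR b0 hb0
      rw [← ht, h4, hb0y]
    rw [← hbL, h5]


/-- The polynomials `P i` are obtained from irreducible polynomials `h i` of degree `g i` in
`π + q / π`, `q = p ^ a`, and for each `i` some automorphism of `ℂ` exchanges `π` and `q / π` for one pair of
roots of `P i` and is the identity on all other roots of all `P k`, and on the roots of `D`. -/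
def FlipsFixing {κ : Type} (p a : ℕ) (g : κ → ℕ) (P : κ → ℤ[X]) (D : ℤ[X]) : Prop :=
  ∃ h : κ → ℤ[X], (∀ i, P i = lift ((p ^ a : ℕ) : ℤ) (g i) (h i)) ∧ (∀ i, (h i).Monic) ∧
    (∀ i, (h i).natDegree = g i) ∧ (∀ i, Irreducible ((h i).map (Int.castRingHom ℚ))) ∧
    ∀ i, ∃ (σ : ℂ ≃+* ℂ) (y0 : ℂ), ((h i).map (Int.castRingHom ℂ)).IsRoot y0 ∧
      (∀ k (π : ℂ), ((P k).map (Int.castRingHom ℂ)).IsRoot π →
        (π + ((p ^ a : ℕ) : ℂ) / π = y0 → σ π = ((p ^ a : ℕ) : ℂ) / π) ∧
          (π + ((p ^ a : ℕ) : ℂ) / π ≠ y0 → σ π = π)) ∧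
      ∀ x : ℂ, (D.map (Int.castRingHom ℂ)).IsRoot x → σ x = x

theorem FlipsFixing.hasFlips {κ : Type} {p a : ℕ} {g : κ → ℕ} {P : κ → ℤ[X]} {D : ℤ[X]}
    (h : FlipsFixing p a g P D) : HasFlips p a g P := by
  obtain ⟨H, h1, h2, h3, h4, h5⟩ := h
  exact ⟨H, h1, h2, h3, h4, fun i => by
    obtain ⟨σ, y0, h6, h7, -⟩ := h5 i
    exact ⟨σ, y0, h6, h7⟩⟩

theorem flipsFixing_of_patterns {κ : Type} [Fintype κ] (D : ℤ[X]) (hDm : D.Monic)
    (A B : ℤ[X]) (c : ℤ) (hD : A * D + B * derivative D = C c) (p : ℕ) [hp : Fact p.Prime] (a : ℕ) (g : κ → ℕ)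
    (h : κ → ℤ[X])
    (hm : ∀ i, (h i).Monic) (hd : ∀ i, (h i).natDegree = g i)
    (hirr : ∀ i, ∃ (l : ℕ) (_ : Fact l.Prime), Irreducible ((h i).map (Int.castRingHom (ZMod l))))
    (hfl : ∀ i0, ∃ (l : ℕ) (_ : Fact l.Prime), (((p ^ a : ℕ) : ℕ) : ZMod l) ≠ 0 ∧
      (c : ZMod l) ≠ 0 ∧ (D.map (Int.castRingHom (ZMod l))).Splits ∧
      ∃ (y : ∀ i, Fin (g i) → ZMod l), (∀ i, Function.Injective (y i)) ∧
        (∀ i, (h i).map (Int.castRingHom (ZMod l)) = ∏ t, (X - C (y i t))) ∧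
        ∃ t0 : Fin (g i0), y i0 t0 ∈ goodB l ((p ^ a : ℕ) : ZMod l) ∧
          ∀ i t, (⟨i, t⟩ : Σ i, Fin (g i)) ≠ ⟨i0, t0⟩ → y i t ∈ goodA l ((p ^ a : ℕ) : ZMod l)) :
    FlipsFixing p a g (fun i => lift ((p ^ a : ℕ) : ℤ) (g i) (h i)) D := by
  classical
  have hq : p ^ a ≠ 0 := pow_ne_zero _ hp.out.ne_zero
  have hirrQ : ∀ i, Irreducible ((h i).map (Int.castRingHom ℚ)) := by
    intro i
    obtain ⟨l, hl, hi⟩ := hirr i
    have h1 : Irreducible (h i) := (hm i).irreducible_of_irreducible_map _ _ hi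
    exact (IsPrimitive.Int.irreducible_iff_irreducible_map_cast (hm i).isPrimitive).1 h1
  have hPm : ∀ i, (lift ((p ^ a : ℕ) : ℤ) (g i) (h i)).Monic := fun i =>
    (lift_monic _ _ _ (hm i) (hd i)).1
  refine ⟨h, fun _ => rfl, hm, hd, hirrQ, ?_⟩
  set f : ℤ[X] := D * ∏ i, (lift ((p ^ a : ℕ) : ℤ) (g i) (h i) * h i) with hf
  have hfm : f.Monic := hDm.mul (monic_prod_of_monic _ _ fun i _ => (hPm i).mul (hm i))
  set PQ : ℚ[X] := f.map (Int.castRingHom ℚ) with hPQ
  have hLN : NumberField PQ.SplittingField :=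
    { to_charZero := charZero_of_injective_algebraMap (algebraMap ℚ PQ.SplittingField).injective
      to_finiteDimensional := inferInstance }
  have hsf : IsSplittingField ℚ PQ.SplittingField PQ := Polynomial.IsSplittingField.splittingField PQ
  have hnormal : Normal ℚ PQ.SplittingField := Normal.of_isSplittingField PQ
  have hGal : IsGalois ℚ PQ.SplittingField := ⟨⟩
  have hsplit : (f.map (Int.castRingHom PQ.SplittingField)).Splits := by
    have h1 := SplittingField.splits PQ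
    convert h1 using 1
    rw [hPQ, Polynomial.map_map]; congr 1
  have hf0 : f.map (Int.castRingHom PQ.SplittingField) ≠ 0 := (hfm.map _).ne_zero
  have hsub : ∀ i, (((lift ((p ^ a : ℕ) : ℤ) (g i) (h i)) * h i).map
      (Int.castRingHom PQ.SplittingField)).Splits := by
    intro i
    refine hsplit.of_dvd hf0 ?_
    exact Polynomial.map_dvd _ (Dvd.dvd.mul_left (Finset.dvd_prod_of_mem (fun i =>
      lift ((p ^ a : ℕ) : ℤ) (g i) (h i) * h i) (Finset.mem_univ i)) D)
  have hPs : ∀ i, ((lift ((p ^ a : ℕ) : ℤ) (g i) (h i)).map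
      (Int.castRingHom PQ.SplittingField)).Splits :=
    fun i => (hsub i).of_dvd (((hPm i).mul (hm i)).map _).ne_zero
      (Polynomial.map_dvd _ (dvd_mul_right _ _))
  have hhs : ∀ i, ((h i).map (Int.castRingHom PQ.SplittingField)).Splits := fun i =>
    (hsub i).of_dvd (((hPm i).mul (hm i)).map _).ne_zero (Polynomial.map_dvd _ (dvd_mul_left _ _))
  have hDs : (D.map (Int.castRingHom PQ.SplittingField)).Splits := by
    refine hsplit.of_dvd hf0 ?_
    exact Polynomial.map_dvd _ (dvd_mul_right _ _)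
  obtain ⟨φ⟩ : Nonempty (PQ.SplittingField →+* ℂ) := inferInstance
  intro i0
  obtain ⟨l, hl, hql, hcl, hDl, y, hy, hhy, t0, hB, hA⟩ := hfl i0
  obtain ⟨σ, y0, hy0, hσ, hσD⟩ := exists_flip_fix D hDm A B c hD (p ^ a) g h hm hd
    PQ.SplittingField hhs l hql hcl hDl y hy hhy i0 t0 hB hA
  obtain ⟨τ, hτ⟩ := Pool.Agent.H977R3.CM.exists_aut φ (σ : PQ.SplittingField ≃+* PQ.SplittingField)
  have hcomp : ∀ Q : ℤ[X], Q.map (Int.castRingHom ℂ) =
      (Q.map (Int.castRingHom PQ.SplittingField)).map φ := by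
    intro Q
    rw [Polynomial.map_map]; congr 1; exact RingHom.ext_int _ _
  refine ⟨τ, φ y0, ?_, ?_, ?_⟩
  · rw [hcomp]
    exact hy0.map
  · intro k π hπ
    have h1 : π ∈ (((lift ((p ^ a : ℕ) : ℤ) (g k) (h k)).map
        (Int.castRingHom PQ.SplittingField)).map φ).roots := by
      rw [mem_roots (((hPm k).map _).map _).ne_zero, ← hcomp]
      exact hπ
    rw [(hPs k).roots_map] at h1
    obtain ⟨x, hx, rfl⟩ := Multiset.mem_map.1 h1
    have hx' := (mem_roots ((hPm k).map _).ne_zero).1 hx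
    obtain ⟨h2, h3⟩ := hσ k x hx'
    have h4 : φ x + ((p ^ a : ℕ) : ℂ) / φ x = φ (x + ((p ^ a : ℕ) : PQ.SplittingField) / x) := by
      rw [map_add, map_div₀, map_natCast]
    constructor
    · intro h5
      rw [h4] at h5
      rw [hτ]
      have h6 := h2 (φ.injective h5)
      have h7 : (σ : PQ.SplittingField ≃+* PQ.SplittingField) x = σ x := rfl
      rw [h7, h6, map_div₀, map_natCast]
    · intro h5
      rw [h4] at h5
      rw [hτ]
      have h6 := h3 (fun h => h5 (congrArg φ h))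
      have h7 : (σ : PQ.SplittingField ≃+* PQ.SplittingField) x = σ x := rfl
      rw [h7, h6]
  · intro x hx
    have h1 : x ∈ ((D.map (Int.castRingHom PQ.SplittingField)).map φ).roots := by
      rw [mem_roots ((hDm.map _).map _).ne_zero, ← hcomp]
      exact hx
    rw [hDs.roots_map] at h1
    obtain ⟨x', hx', rfl⟩ := Multiset.mem_map.1 h1
    have h2 := hσD x' ((mem_roots (hDm.map _).ne_zero).1 hx')
    rw [hτ]
    have h7 : (σ : PQ.SplittingField ≃+* PQ.SplittingField) x' = σ x' := rfl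
    rw [h7, h2]

/-- Primes modulo which `D` splits and the number `c` is not zero. -/
theorem exists_primes_split (D : ℤ[X]) (hDm : D.Monic) (c : ℤ) (hc : c ≠ 0) (p N b : ℕ) :
    ∃ T : Finset Nat.Primes, T.card = N ∧ ∀ l ∈ T, (b ≤ (l : ℕ) ∧ (l : ℕ) ≠ p) ∧
      (c : ZMod (l : ℕ)) ≠ 0 ∧ (D.map (Int.castRingHom (ZMod (l : ℕ)))).Splits := by
  have hinf : {l : Nat.Primes | (b ≤ (l : ℕ) ∧ (l : ℕ) ≠ p) ∧
      (c : ZMod (l : ℕ)) ≠ 0 ∧ (D.map (Int.castRingHom (ZMod (l : ℕ)))).Splits}.Infinite := by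
    intro hfin
    obtain ⟨M, hM⟩ : ∃ M : ℕ, ∀ l ∈ {l : Nat.Primes | (b ≤ (l : ℕ) ∧ (l : ℕ) ≠ p) ∧
      (c : ZMod (l : ℕ)) ≠ 0 ∧ (D.map (Int.castRingHom (ZMod (l : ℕ)))).Splits}, (l : ℕ) ≤ M := by
      obtain ⟨M, hM⟩ := (hfin.image (fun l : Nat.Primes => (l : ℕ))).bddAbove
      exact ⟨M, fun l hl => hM ⟨l, hl, rfl⟩⟩
    obtain ⟨l, hl, hlN, hls⟩ := Pool.Agent.H884R2.Sko.exists_split D hDm (M + b + p + c.natAbs)
    have h1 := hM ⟨l, hl⟩ ⟨⟨by show b ≤ l; omega, by show l ≠ p; omega⟩, by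
      show ((c : ℤ) : ZMod l) ≠ 0
      rw [Ne, ZMod.intCast_zmod_eq_zero_iff_dvd]
      intro h2
      have h3 := Int.natAbs_dvd_natAbs.2 h2
      rw [Int.natAbs_natCast] at h3
      have h4 := Nat.le_of_dvd (Int.natAbs_pos.2 hc) h3
      omega, hls⟩
    have h2 : l ≤ M := h1
    omega
  obtain ⟨T, hT, hTc⟩ := hinf.exists_subset_card_eq N
  exact ⟨T, hTc, fun l hl => hT hl⟩

section final

variable {κ : Type} [Fintype κ] [DecidableEq κ] (g : κ → ℕ) (s : ∀ i, Fin (g i) → ℚ)
  (p : ℕ) [hp : Fact p.Prime] (D : ℤ[X]) (hDm : D.Monic) (A B : ℤ[X]) (c : ℤ)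
  (hD : A * D + B * derivative D = C c)

include hDm hD

/-- Good points. -/
theorem flipsFixing_of_hits (a : ℕ) (hg : ∀ i, 1 ≤ g i) (b : (Σ i, Fin (g i)) → ℤ)
    (T : Finset Nat.Primes) (hT : ∀ l ∈ T, (l : ℕ) ≠ p) (hTD : ∀ l ∈ T, (c : ZMod (l : ℕ)) ≠ 0 ∧
      (D.map (Int.castRingHom (ZMod (l : ℕ)))).Splits)
    (h : ∀ c : κ ⊕ κ, ∃ l ∈ T, (fun j => ((b j : ℤ) : ZMod (l : ℕ))) ∈ SS' g s p a c l) :
    FlipsFixing p a g (Psi g s p a b) D := by
  classical
  set B' : (Σ i, Fin (g i)) → ℤ := fun j => (p : ℤ) ^ Eexp g s a j * b j with hB'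
  have hmap : ∀ (l : Nat.Primes) (i : κ), (hTup g B' i).map (Int.castRingHom (ZMod (l : ℕ))) =
      Pool.Agent.W518.DN.hp (fun t : Fin (g i) =>
        (p : ZMod (l : ℕ)) ^ Eexp g s a ⟨i, t⟩ * ((b ⟨i, t⟩ : ℤ) : ZMod (l : ℕ))) := by
    intro l i
    rw [hTup, hp_map]
    congr 1
    funext t
    simp [hB']
  have hmem : ∀ c : κ ⊕ κ, ∃ l ∈ T, ∀ i, (fun t : Fin (g i) => (p : ZMod ((l : Nat.Primes) : ℕ)) ^
      Eexp g s a ⟨i, t⟩ * ((b ⟨i, t⟩ : ℤ) : ZMod (l : ℕ))) ∈ pat g (p ^ a) (l : ℕ) c i := by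
    intro c
    obtain ⟨l, hl, hlm⟩ := h c
    refine ⟨l, hl, ?_⟩
    rw [SS', Finset.mem_filter] at hlm
    have := hlm.2
    rw [patSet, Finset.mem_filter] at this
    exact this.2
  refine flipsFixing_of_patterns D hDm A B c hD p a g (hTup g B') (fun i => hp_monic _)
    (fun i => hp_natDegree _) ?_ ?_
  · intro i
    obtain ⟨l, hl, hlm⟩ := hmem (Sum.inl i)
    refine ⟨(l : ℕ), inferInstance, ?_⟩
    have h1 := hlm i
    simp only [pat, if_true] at h1
    rw [hmap l i]
    exact (Finset.mem_filter.1 h1).2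
  · intro i0
    obtain ⟨l, hl, hlm⟩ := hmem (Sum.inr i0)
    have hpl : ((p ^ a : ℕ) : ZMod (l : ℕ)) ≠ 0 := by
      push_cast
      apply pow_ne_zero
      intro h0
      rw [ZMod.natCast_eq_zero_iff] at h0
      rcases (Nat.dvd_prime hp.out).1 h0 with h1 | h1
      · exact l.2.one_lt.ne' h1
      · exact hT l hl h1
    refine ⟨(l : ℕ), inferInstance, hpl, (hTD l hl).1, (hTD l hl).2, ?_⟩
    have h2 : ∀ i, ∃ y : Fin (g i) → ZMod (l : ℕ), Function.Injective y ∧
        (∀ t : Fin (g i), y t ∈ (if i = i0 ∧ (t : ℕ) = 0 then goodB (l : ℕ) ((p ^ a : ℕ) : ZMod (l : ℕ))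
          else goodA (l : ℕ) ((p ^ a : ℕ) : ZMod (l : ℕ)))) ∧
        (hTup g B' i).map (Int.castRingHom (ZMod (l : ℕ))) = ∏ t, (X - C (y t)) := by
      intro i
      have h1 := hlm i
      simp only [pat] at h1
      rw [Pool.Agent.W518.DN.rootSet, Finset.mem_filter] at h1
      obtain ⟨_, y, hy1, hy2, hy3⟩ := h1
      exact ⟨y, hy1, hy2, by rw [hmap l i]; exact hy3⟩
    choose y hy1 hy2 hy3 using h2
    refine ⟨y, hy1, hy3, ⟨0, hg i0⟩, ?_, ?_⟩
    · have := hy2 i0 ⟨0, hg i0⟩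
      rwa [if_pos ⟨rfl, rfl⟩] at this
    · intro i t hne
      have := hy2 i t
      rwa [if_neg ?_] at this
      rintro ⟨rfl, h0⟩
      apply hne
      congr 1
      exact Fin.ext h0

/-- **Density one in every Newton stratum.** -/
theorem density_fixing (hc : c ≠ 0) (hg : ∀ i, 1 ≤ g i) (hs : ∀ i, IsNewton (s i)) (hss : ∀ i, ∃ j, s i j < 1 / 2)
    [Nonempty κ] (N0 : ℕ) (ε : ℝ) (hε : 0 < ε) :
    ∃ a0 : ℕ, ∀ a, a0 ≤ a → (Stratum g s p a).Finite ∧ N0 ≤ (Stratum g s p a).ncard ∧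
      (({P ∈ Stratum g s p a | ¬ FlipsFixing p a g P D}.ncard : ℕ) : ℝ) ≤
        ε * (Stratum g s p a).ncard := by
  classical
  have hp2 := hp.out.two_le
  have hppos : (0 : ℝ) < p := by exact_mod_cast hp.out.pos
  set G : ℕ := ∑ i, g i with hG
  have hgG : ∀ i, g i ≤ G := fun i => Finset.single_le_sum (fun _ _ => Nat.zero_le _)
    (Finset.mem_univ i)
  set KK : ℝ := 2 * 4 ^ G + 1 with hKK
  have hKKpos : 0 < KK := by positivity
  set nJ := Fintype.card (Σ i, Fin (g i)) with hnJ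
  set c0 : ℝ := (∏ i, ((4 * g i : ℕ) ^ g i : ℝ))⁻¹ with hc0
  have hprod1 : (1 : ℝ) ≤ ∏ i, ((4 * g i : ℕ) ^ g i : ℝ) := by
    have h1 : (1 : ℝ) = ∏ _i : κ, (1 : ℝ) := by simp
    rw [h1]
    refine Finset.prod_le_prod (fun _ _ => zero_le_one) fun i _ => ?_
    have h2 : 1 ≤ (4 * g i) ^ g i := Nat.one_le_pow _ _ (by have := hg i; omega)
    exact_mod_cast h2
  have hc0pos : 0 < c0 := by rw [hc0]; positivity
  have hc01 : c0 ≤ 1 := inv_le_one_of_one_le₀ hprod1
  set A0 : ℝ := ∏ j : (Σ i, Fin (g i)), (del (g j.1) / p) with hA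
  have hApos : 0 < A0 := Finset.prod_pos fun j _ => div_pos (del_pos (hg j.1)) hppos
  set C1 : ℝ := (Fintype.card (κ ⊕ κ) : ℝ) * KK ^ nJ + 1 with hC1
  have hC1pos : 0 < C1 := by positivity
  obtain ⟨N, hN⟩ := exists_pow_lt_of_lt_one (show 0 < ε * A0 / C1 by positivity)
    (show 1 - c0 < 1 by linarith)
  obtain ⟨T, hTc, hT'⟩ := exists_primes_split D hDm c hc p N (4 * G + 8)
  have hT : ∀ l ∈ T, 4 * G + 8 ≤ (l : ℕ) ∧ (l : ℕ) ≠ p := fun l hl => (hT' l hl).1
  set M : ℕ := ∏ l ∈ T, (l : ℕ) with hM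
  -- the threshold
  set R : (Σ i, Fin (g i)) → ℝ := fun j => (M : ℝ) + p * (N0 + 1) / del (g j.1) with hR
  choose a1 ha1 using fun j => Ysz_large g s p hs hss (R j) j
  refine ⟨(∑ j, a1 j) + 1, fun a ha => ?_⟩
  have ha0 : 0 < a := by omega
  have hY : ∀ j, R j ≤ Ysz g s p a j := fun j => ha1 j a
    ((Finset.single_le_sum (fun _ _ => Nat.zero_le _) (Finset.mem_univ j)).trans (by omega))
  have hRM : ∀ j, (M : ℝ) ≤ R j := fun j => by
    have := del_pos (hg j.1)
    rw [hR]; simp only; have : 0 ≤ (p : ℝ) * (N0 + 1) / del (g j.1) := by positivity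
    linarith
  have hRd : ∀ j, (p : ℝ) * (N0 + 1) ≤ del (g j.1) * Ysz g s p a j := fun j => by
    have hd := del_pos (hg j.1)
    have h1 : (p : ℝ) * (N0 + 1) / del (g j.1) ≤ Ysz g s p a j := by
      refine le_trans ?_ (hY j)
      rw [hR]; simp only; linarith [Nat.cast_nonneg (α := ℝ) M]
    rw [div_le_iff₀ hd] at h1
    linarith
  have hYd : ∀ j, (p : ℝ) ≤ del (g j.1) * Ysz g s p a j := fun j => by
    refine le_trans ?_ (hRd j)
    have : (0 : ℝ) ≤ N0 := Nat.cast_nonneg _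
    nlinarith
  have hYpos : ∀ j, 0 < Ysz g s p a j := fun j => by
    have hd := del_pos (hg j.1)
    have h1 := hppos.trans_le (hYd j)
    exact (pos_iff_pos_of_mul_pos h1).1 hd
  have hlow := Stratum_lower g s p ha0 hs hg hYd
  have hfin := Stratum_finite g s p ha0 hs
  refine ⟨hfin, ?_, ?_⟩
  · -- the number of elements
    obtain ⟨i0⟩ := (inferInstance : Nonempty κ)
    have h1 : (N0 : ℝ) ≤ ∏ j : (Σ i, Fin (g i)), (del (g j.1) / p * Ysz g s p a j) := by
      have hone : ∀ j : (Σ i, Fin (g i)), (N0 : ℝ) + 1 ≤ del (g j.1) / p * Ysz g s p a j := by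
        intro j
        rw [div_mul_eq_mul_div, le_div_iff₀ hppos]
        linarith [hRd j]
      let j0 : Σ i, Fin (g i) := ⟨i0, ⟨0, hg i0⟩⟩
      rw [← Finset.mul_prod_erase _ _ (Finset.mem_univ j0)]
      have h2 : (1 : ℝ) ≤ ∏ j ∈ Finset.univ.erase j0, (del (g j.1) / p * Ysz g s p a j) := by
        have h3 : (1 : ℝ) = ∏ _j ∈ Finset.univ.erase j0, (1 : ℝ) := by simp
        rw [h3]
        refine Finset.prod_le_prod (fun _ _ => zero_le_one) fun j _ => ?_
        have := hone j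
        have : (0 : ℝ) ≤ N0 := Nat.cast_nonneg _
        linarith
      have h4 := hone j0
      have h5 : (0 : ℝ) ≤ N0 := Nat.cast_nonneg _
      nlinarith
    exact_mod_cast h1.trans hlow
  · -- the bad elements
    let X' : κ ⊕ κ → Finset ((Σ i, Fin (g i)) → ℤ) := fun c =>
      (Fintype.piFinset fun j => Finset.Icc (-(box2 g s p a j : ℤ)) (box2 g s p a j)).filter
        (fun b : (Σ i, Fin (g i)) → ℤ => ∀ l ∈ T, (fun j => ((b j : ℤ) : ZMod (l : ℕ))) ∉
          SS' g s p a c l)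
    have hbad : {P ∈ Stratum g s p a | ¬ FlipsFixing p a g P D} ⊆
        ((Finset.univ.biUnion fun c => (X' c).image (Psi g s p a) : Finset (κ → ℤ[X])) :
          Set (κ → ℤ[X])) := by
      rintro P ⟨hP, hPbad⟩
      obtain ⟨b, hb, rfl⟩ := exists_of_mem_Stratum g s p ha0 hs hP
      by_contra hcon
      apply hPbad
      refine flipsFixing_of_hits g s p D hDm A B c hD a hg b T (fun l hl => (hT l hl).2)
        (fun l hl => (hT' l hl).2) fun c => ?_
      by_contra hc
      push Not at hc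
      apply hcon
      rw [Finset.mem_coe, Finset.mem_biUnion]
      exact ⟨c, Finset.mem_univ _, Finset.mem_image_of_mem _ (Finset.mem_filter.2 ⟨hb, hc⟩)⟩
    have hXc : ∀ c, ((X' c).card : ℝ) ≤ (1 - c0) ^ N * (KK ^ nJ * ∏ j, Ysz g s p a j) := by
      intro c
      have h1 := sieve (box2 g s p a) T (fun l => SS' g s p a c l) c0 hc01 (by
        intro l hl
        exact SS'_card g s p a c l hg (fun i => by
          have := (hT l hl).1; have := hgG i; omega) (hT l hl).2)
      refine h1.trans ?_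
      rw [hTc]
      refine mul_le_mul_of_nonneg_left ?_ (pow_nonneg (by linarith) _)
      have h2 : KK ^ nJ * ∏ j, Ysz g s p a j = ∏ j, (KK * Ysz g s p a j) := by
        rw [Finset.prod_mul_distrib]; simp [hnJ]
      rw [h2]
      refine Finset.prod_le_prod (fun j _ => by positivity) fun j _ => ?_
      have hYj := hYpos j
      have h3 : (box2 g s p a j : ℝ) ≤ 4 ^ G * Ysz g s p a j := by
        refine (Nat.floor_le (by positivity)).trans ?_
        refine mul_le_mul_of_nonneg_right ?_ hYj.le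
        have h4 : (2 : ℝ) ^ (g j.1 - (j.2 : ℕ)) ≤ 2 ^ G :=
          pow_le_pow_right₀ (by norm_num) ((Nat.sub_le _ _).trans (hgG j.1))
        have h5 : ((g j.1).choose j.2 : ℝ) ≤ 2 ^ G := by
          have h6 : (g j.1).choose j.2 ≤ 2 ^ g j.1 := Nat.choose_le_two_pow _ _
          have h7 : (2 : ℕ) ^ g j.1 ≤ 2 ^ G := Nat.pow_le_pow_right (by norm_num) (hgG j.1)
          exact_mod_cast h6.trans h7
        calc _ ≤ (2 : ℝ) ^ G * 2 ^ G := mul_le_mul h4 h5 (by positivity) (by positivity)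
          _ = 4 ^ G := by rw [← mul_pow]; norm_num
      have h4 : ((∏ l ∈ T, (l : ℕ) : ℕ) : ℝ) ≤ Ysz g s p a j := (hRM j).trans (hY j)
      calc _ ≤ 2 * (4 ^ G * Ysz g s p a j) + Ysz g s p a j := by linarith
        _ = KK * Ysz g s p a j := by rw [hKK]; ring
    have hcard : (({P ∈ Stratum g s p a | ¬ FlipsFixing p a g P D}.ncard : ℕ) : ℝ) ≤
        (Fintype.card (κ ⊕ κ) : ℝ) * ((1 - c0) ^ N * (KK ^ nJ * ∏ j, Ysz g s p a j)) := by
      have h1 : ({P ∈ Stratum g s p a | ¬ FlipsFixing p a g P D}.ncard : ℕ) ≤ ∑ c, (X' c).card := by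
        refine (Set.ncard_le_ncard hbad (Finset.finite_toSet _)).trans ?_
        rw [Set.ncard_coe_finset]
        refine Finset.card_biUnion_le.trans (Finset.sum_le_sum fun c _ => Finset.card_image_le)
      calc (({P ∈ Stratum g s p a | ¬ FlipsFixing p a g P D}.ncard : ℕ) : ℝ)
          ≤ ∑ c, ((X' c).card : ℝ) := by exact_mod_cast h1
        _ ≤ ∑ _c : κ ⊕ κ, ((1 - c0) ^ N * (KK ^ nJ * ∏ j, Ysz g s p a j)) :=
            Finset.sum_le_sum fun c _ => hXc c
        _ = _ := by rw [Finset.sum_const, Finset.card_univ, nsmul_eq_mul]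
    refine hcard.trans ?_
    have hlow' : A0 * ∏ j, Ysz g s p a j ≤ ((Stratum g s p a).ncard : ℝ) := by
      rw [hA, ← Finset.prod_mul_distrib]; exact hlow
    have hYprod : 0 < ∏ j, Ysz g s p a j := Finset.prod_pos fun j _ => hYpos j
    have h1 : (Fintype.card (κ ⊕ κ) : ℝ) * ((1 - c0) ^ N * (KK ^ nJ * ∏ j, Ysz g s p a j)) ≤
        C1 * (1 - c0) ^ N * ∏ j, Ysz g s p a j := by
      have h2 : 0 ≤ (1 - c0) ^ N := pow_nonneg (by linarith) _
      have h3 : 0 ≤ (1 - c0) ^ N * ∏ j, Ysz g s p a j := mul_nonneg h2 hYprod.le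
      rw [hC1]
      nlinarith
    have h2 : C1 * (1 - c0) ^ N ≤ ε * A0 := by
      rw [lt_div_iff₀ hC1pos] at hN
      linarith
    calc _ ≤ C1 * (1 - c0) ^ N * ∏ j, Ysz g s p a j := h1
      _ ≤ ε * A0 * ∏ j, Ysz g s p a j := mul_le_mul_of_nonneg_right h2 hYprod.le
      _ = ε * (A0 * ∏ j, Ysz g s p a j) := by ring
      _ ≤ _ := mul_le_mul_of_nonneg_left hlow' hε.le

end final

end Pool.Agent.V5helper90.NS
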