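import Mathlib
import Pool.Agent.V5helper90.TB.TBDefs
import Pool.Agent.W518.TC.Defs

/-!
# Families of abelian varieties over finite fields in a Newton stratum: definitions
-/

set_option autoImplicit false

open Polynomial

namespace Pool.Agent.V5helper90.NS

open Module Pool.Agent.W495.TA Pool.Agent.W518.TC Pool.Agent.V5helper90.TB

/-- The numbers `s j` and `1 - s j`, `j < g`, are the slopes of a symmetric Newton polygon with
integral break points, `s 0 ≤ s 1 ≤ ... ≤ 1 / 2`. -/
structure IsNewtonPolygon {g : ℕ} (s : Fin g → ℚ) : Prop where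
  mono : Monotone s
  nonneg : ∀ i, 0 ≤ s i
  le_half : ∀ i, s i ≤ 1 / 2
  integral : ∀ x : ℚ, x < 1 / 2 →
    ∃ n : ℤ, ((Finset.univ.filter fun i => s i = x).card : ℚ) * x = n

/-- The `p`-adic absolute values of the roots of `P` are the numbers `p ^ (- a s j)` and
`p ^ (- a (1 - s j))`. -/
def HasSlopes (p : ℕ) [Fact p.Prime] (a : ℕ) {g : ℕ} (s : Fin g → ℚ) (P : ℤ[X]) : Prop :=
  (P.map (Int.castRingHom (AlgebraicClosure ℚ_[p]))).roots.map
      (fun x => spectralNorm ℚ_[p] (AlgebraicClosure ℚ_[p]) x) =
    Finset.univ.val.map (fun i => (p : ℝ) ^ (-((a * s i : ℚ) : ℝ))) +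
      Finset.univ.val.map (fun i => (p : ℝ) ^ (-((a * (1 - s i) : ℚ) : ℝ)))

/-- The families of Frobenius polynomials of abelian varieties `A i` of dimension `g i` over the field
with `p ^ a` elements whose Newton polygons have the slopes `s i j` and `1 - s i j`. By the theorem of
Honda and Tate this is the set of the families of isogeny classes of such abelian varieties. -/
def Stratum {κ : Type} (g : κ → ℕ) (s : ∀ i, Fin (g i) → ℚ) (p : ℕ) [Fact p.Prime] (a : ℕ) :
    Set (κ → ℤ[X]) :=
  {P | ∀ i, IsFrobPoly p a (P i) ∧ (P i).natDegree = 2 * g i ∧ HasSlopes p a (s i) (P i)}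

variable {p : ℕ} [Fact p.Prime] {ν : PadicAlgCl p ≃+* ℂ}

/-- The factor `k` of `Z` is, over a finite extension, isogenous to a power of the abelian variety over
the field with `p ^ a` elements whose Frobenius polynomial is the irreducible polynomial `P`: the
power of the Frobenius endomorphism which belongs to the extension of degree `t` of the field with
`p ^ a` elements is the power with the exponent `t` of a root `z` of `P`. -/
def IsPowerOfMember (Z : RedAV p ν) (k : Z.X.I) (a : ℕ) (P : ℤ[X]) : Prop :=
  ∃ (z : (Z.X.factor k).E) (s t : ℕ), 0 < s ∧ 0 < t ∧ Z.a * s = a * t ∧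
    P.eval₂ (Int.castRingHom _) z = 0 ∧ Z.π k ^ s = z ^ t

/-- The abelian variety `Z` is the product of a small block `S` of factors (see `IsSmallBlock`) and of
factors that are (over an algebraic closure) isogenous to powers of members `A i` of the family of
abelian varieties of dimension `g i` with the Frobenius polynomials `P i`; these members are
different, and the factors in the small block have smaller dimensions than them. -/
def OfFamily {κ : Type} (a : ℕ) (g : κ → ℕ) (P : κ → ℤ[X]) (Z : RedAV p ν) : Prop :=
  ∃ (S : Set Z.X.I) (c : Z.X.I → κ), IsSmallBlock Z S ∧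
    (∀ k ∉ S, IsPowerOfMember Z k a (P (c k))) ∧
    (∀ k ∉ S, ∀ k' ∉ S, k ≠ k' → P (c k) ≠ P (c k')) ∧
    ∀ k ∈ S, ∀ k' ∉ S, finrank ℚ (Z.X.factor k).E < 2 * g (c k')

/-- `Y` is, over an algebraic closure, isogenous to a product of a supersingular abelian variety and
of powers of members of the family with the Frobenius polynomials `P i` and of factors in a small
block of smaller dimensions. -/
def IsGeneratedByFamily {κ : Type} (a : ℕ) (g : κ → ℕ) (P : κ → ℤ[X]) (Y : RedAV p ν) : Prop :=
  ∃ Z : RedAV p ν, OfFamily a g P Z ∧ IsPowersOf Z Y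

end Pool.Agent.V5helper90.NS
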