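import Mathlib
import Pool.Agent.V5helper90.NS.Flips
import Pool.Agent.V5helper90.TB.Flip
import Pool.Agent.Y46.KN1.CmBij

/-!
# The fields generated by Frobenius eigenvalues with flips
-/

set_option autoImplicit false

open Polynomial NumberField IntermediateField Module

namespace Pool.Agent.V5helper90.NS

open Pool.Agent.W518.DN Pool.Agent.V5helper90.TB

theorem conj_eq {q : ℕ} (hq : q ≠ 0) {z : ℂ} (hz : ‖z‖ ^ 2 = (q : ℝ)) :
    (q : ℂ) / z = (starRingEnd ℂ) z := by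
  have hz0 : z ≠ 0 := by
    rintro rfl
    rw [norm_zero, zero_pow two_ne_zero] at hz
    exact hq (by exact_mod_cast hz.symm)
  rw [div_eq_iff hz0, mul_comm, Complex.mul_conj, Complex.normSq_eq_norm_sq, hz]
  push_cast
  rfl

/-- Automorphisms of `ℂ` are transitive on the roots of an irreducible polynomial. -/
theorem exists_map_root {h : ℤ[X]} (hm : h.Monic)
    (hirr : Irreducible (h.map (Int.castRingHom ℚ))) {y y' : ℂ}
    (hy : (h.map (Int.castRingHom ℂ)).IsRoot y) (hy' : (h.map (Int.castRingHom ℂ)).IsRoot y') :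
    ∃ τ : ℂ ≃+* ℂ, τ y = y' := by
  have haev : ∀ x : ℂ, (h.map (Int.castRingHom ℂ)).IsRoot x →
      aeval x (h.map (Int.castRingHom ℚ)) = 0 := by
    intro x hx
    rw [aeval_def, ← eval_map, Polynomial.map_map]
    have h1 : (algebraMap ℚ ℂ).comp (Int.castRingHom ℚ) = Int.castRingHom ℂ := RingHom.ext_int _ _
    rw [h1]
    exact hx
  have hint : IsIntegral ℚ y := ⟨h.map (Int.castRingHom ℚ), hm.map _, haev y hy⟩
  have hmin : minpoly ℚ y = h.map (Int.castRingHom ℚ) :=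
    (minpoly.eq_of_irreducible_of_monic hirr (haev y hy) (hm.map _)).symm
  have hfin : FiniteDimensional ℚ ℚ⟮y⟯ := adjoin.finiteDimensional hint
  have hNF : NumberField ℚ⟮y⟯ := ⟨⟩
  let pb := adjoin.powerBasis hint
  have hpb : minpoly ℚ pb.gen = h.map (Int.castRingHom ℚ) := by
    rw [← hmin]
    exact minpoly_gen ℚ y
  have hkey : aeval y' (minpoly ℚ pb.gen) = 0 := by
    have h1 := haev y' hy'
    rw [← hpb] at h1
    exact h1
  let f : ℚ⟮y⟯ →ₐ[ℚ] ℂ := pb.lift y' hkey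
  obtain ⟨σ, hσ⟩ := Pool.Agent.TH170.MF.exists_comp_eq ℚ⟮y⟯ (ℚ⟮y⟯.val : ℚ⟮y⟯ →+* ℂ)
    (f : ℚ⟮y⟯ →+* ℂ)
  refine ⟨σ, ?_⟩
  have h1 := RingHom.congr_fun hσ (AdjoinSimple.gen ℚ y)
  have h2 : f (AdjoinSimple.gen ℚ y) = y' := pb.lift_gen y' _
  exact h1.trans h2

section roots

variable {κ : Type} {p a : ℕ} {g : κ → ℕ} {P : κ → ℤ[X]}

theorem fibre {q z w : ℂ} (hz : z ≠ 0) (hw : w ≠ 0) (h : z + q / z = w + q / w) :
    z = w ∨ z = q / w := by
  have h1 : (z - w) * (z - q / w) = 0 := by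
    have h2 : z * (z + q / z) = z * z + q := by field_simp
    rw [h] at h2
    have h3 : (z - w) * (z - q / w) = z * z + w * (q / w) - z * (w + q / w) := by ring
    rw [h3, h2, mul_div_cancel₀ _ hw]
    ring
  rcases mul_eq_zero.1 h1 with h2 | h2
  · exact Or.inl (sub_eq_zero.1 h2)
  · exact Or.inr (sub_eq_zero.1 h2)

theorem root_ne (hF : HasFlips p a g P) (hp : p.Prime) {i : κ} {ρ : ℂ}
    (hρ : ((P i).map (Int.castRingHom ℂ)).IsRoot ρ) : ρ ≠ 0 := by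
  obtain ⟨h, hP, hm, hd, -, -⟩ := hF
  rw [hP i] at hρ
  exact (root_symm (hm i) (hd i) (pow_ne_zero a hp.ne_zero) hρ).1

/-- The flip of one pair of roots. -/
theorem flip_at (hF : HasFlips p a g P) (hp : p.Prime) (i : κ) {ρ : ℂ}
    (hρ : ((P i).map (Int.castRingHom ℂ)).IsRoot ρ) :
    ∃ σ : ℂ ≃+* ℂ, ∀ k (π : ℂ), ((P k).map (Int.castRingHom ℂ)).IsRoot π →
      (π + ((p ^ a : ℕ) : ℂ) / π = ρ + ((p ^ a : ℕ) : ℂ) / ρ → σ π = ((p ^ a : ℕ) : ℂ) / π) ∧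
      (π + ((p ^ a : ℕ) : ℂ) / π ≠ ρ + ((p ^ a : ℕ) : ℂ) / ρ → σ π = π) := by
  obtain ⟨h, hP, hm, hd, hirr, hfl⟩ := hF
  have hρ' := hρ
  rw [hP i] at hρ'
  have hy := (root_symm (hm i) (hd i) (pow_ne_zero a hp.ne_zero) hρ').2.2
  set y := ρ + ((p ^ a : ℕ) : ℂ) / ρ with hydef
  obtain ⟨σ, y0, hy0, hσ⟩ := hfl i
  obtain ⟨τ, hτ⟩ := exists_map_root (hm i) (hirr i) hy0 hy
  have hroot : ∀ (θ : ℂ ≃+* ℂ) (k : κ) (z : ℂ), ((P k).map (Int.castRingHom ℂ)).IsRoot z →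
      ((P k).map (Int.castRingHom ℂ)).IsRoot (θ z) := by
    intro θ k z hz
    have h2 : (P k).map (Int.castRingHom ℂ) = ((P k).map (Int.castRingHom ℂ)).map (θ : ℂ →+* ℂ) := by
      rw [Polynomial.map_map]; congr 1; exact RingHom.ext_int _ _
    rw [h2]
    exact hz.map
  refine ⟨(τ.symm.trans σ).trans τ, fun k π hπ => ?_⟩
  have hπ' := hroot τ.symm k π hπ
  have h1 : τ.symm π + ((p ^ a : ℕ) : ℂ) / τ.symm π = τ.symm (π + ((p ^ a : ℕ) : ℂ) / π) := by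
    rw [map_add, map_div₀, map_natCast]
  have h2 : τ.symm (π + ((p ^ a : ℕ) : ℂ) / π) = y0 ↔ π + ((p ^ a : ℕ) : ℂ) / π = y := by
    rw [← hτ]
    constructor
    · intro h; rw [← h, RingEquiv.apply_symm_apply]
    · intro h; rw [h, RingEquiv.symm_apply_apply]
  obtain ⟨hA, hB⟩ := hσ k _ hπ'
  rw [h1] at hA hB
  constructor
  · intro h
    show τ (σ (τ.symm π)) = _
    rw [hA (h2.2 h), map_div₀, map_natCast, RingEquiv.apply_symm_apply]
  · intro h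
    show τ (σ (τ.symm π)) = _
    rw [hB (fun h' => h (h2.1 h')), RingEquiv.apply_symm_apply]

/-- Transitivity on the roots. -/
theorem trans_roots (hF : HasFlips p a g P) (hp : p.Prime) {i : κ}
    (hw : ∀ z : ℂ, ((P i).map (Int.castRingHom ℂ)).IsRoot z → ‖z‖ ^ 2 = (p : ℝ) ^ a) {ρ ρ' : ℂ}
    (hρ : ((P i).map (Int.castRingHom ℂ)).IsRoot ρ)
    (hρ' : ((P i).map (Int.castRingHom ℂ)).IsRoot ρ') : ∃ τ : ℂ ≃+* ℂ, τ ρ = ρ' := by
  have hq : p ^ a ≠ 0 := pow_ne_zero a hp.ne_zero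
  have h01 := root_ne hF hp hρ
  have h02 := root_ne hF hp hρ'
  obtain ⟨h, hP, hm, hd, hirr, hfl⟩ := hF
  have hρ1 := hρ
  have hρ2 := hρ'
  rw [hP i] at hρ1 hρ2
  have hy1 := (root_symm (hm i) (hd i) hq hρ1).2.2
  have hy2 := (root_symm (hm i) (hd i) hq hρ2).2.2
  obtain ⟨τ, hτ⟩ := exists_map_root (hm i) (hirr i) hy1 hy2
  rw [map_add, map_div₀, map_natCast] at hτ
  rcases fibre (by simpa using h01) h02 hτ with h3 | h3
  · exact ⟨τ, h3⟩
  · refine ⟨τ.trans (starRingAut (R := ℂ)), ?_⟩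
    show (starRingEnd ℂ) (τ ρ) = ρ'
    rw [h3, conj_eq hq (by rw [hw ρ' hρ']; push_cast; rfl), Complex.conj_conj]

/-- The roots are not square roots of `q`. -/
theorem sq_ne [hp : Fact p.Prime] (hF : HasFlips p a g P) {i : κ}
    (hw : ∀ z : ℂ, ((P i).map (Int.castRingHom ℂ)).IsRoot z → ‖z‖ ^ 2 = (p : ℝ) ^ a)
    (ha : 0 < a) {G : ℕ} {s : Fin G → ℚ} (hsl : HasSlopes p a s (P i)) (hs : ∃ j, s j < 1 / 2) {ρ : ℂ}
    (hρ : ((P i).map (Int.castRingHom ℂ)).IsRoot ρ) : ρ ^ 2 ≠ ((p ^ a : ℕ) : ℂ) := by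
  classical
  intro hsq
  have hPm : (P i).Monic := by
    obtain ⟨h, hP, hm, hd, -, -⟩ := hF
    rw [hP i]
    exact (lift_monic _ _ _ (hm i) (hd i)).1
  have hall : ∀ x : ℂ, ((P i).map (Int.castRingHom ℂ)).IsRoot x → x ^ 2 = ((p ^ a : ℕ) : ℂ) := by
    intro x hx
    obtain ⟨τ, rfl⟩ := trans_roots hF hp.out hw hρ hx
    rw [← map_pow, hsq, map_natCast]
  -- `P` divides a power of `X ^ 2 - q`
  have hdvd : P i ∣ (X ^ 2 - C ((p ^ a : ℕ) : ℤ)) ^ Multiset.card ((P i).map (Int.castRingHom ℂ)).roots := by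
    rw [← Polynomial.map_dvd_map (Int.castRingHom ℂ) (RingHom.injective_int _) hPm]
    have h1 : ((P i).map (Int.castRingHom ℂ)) =
        (((P i).map (Int.castRingHom ℂ)).roots.map fun x => X - C x).prod := by
      have h2 := (IsAlgClosed.splits ((P i).map (Int.castRingHom ℂ))).eq_prod_roots
      rwa [(hPm.map _).leadingCoeff, C_1, one_mul] at h2
    conv_lhs => rw [h1]
    have h3 : ((X ^ 2 - C ((p ^ a : ℕ) : ℤ)) ^ Multiset.card ((P i).map (Int.castRingHom ℂ)).roots).map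
        (Int.castRingHom ℂ) =
        (((P i).map (Int.castRingHom ℂ)).roots.map fun _ => (X ^ 2 - C ((p ^ a : ℕ) : ℂ))).prod := by
      rw [Multiset.map_const', Multiset.prod_replicate]
      simp
    rw [h3]
    refine Multiset.prod_dvd_prod_of_dvd _ _ fun x hx => ?_
    rw [dvd_iff_isRoot, IsRoot.def]
    simp only [eval_sub, eval_pow, eval_X, eval_C]
    rw [hall x (mem_roots'.1 hx).2, sub_self]
  -- the slopes
  obtain ⟨j, hj⟩ := hs
  have hp2 := hp.out.one_lt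
  have h4 : (p : ℝ) ^ (-((a * s j : ℚ) : ℝ)) ∈ ((P i).map (Int.castRingHom
      (AlgebraicClosure ℚ_[p]))).roots.map
      (fun x => spectralNorm ℚ_[p] (AlgebraicClosure ℚ_[p]) x) := by
    rw [hsl]
    exact Multiset.mem_add.2 (Or.inl (Multiset.mem_map_of_mem _ (Finset.mem_univ j)))
  obtain ⟨x, hx, hxn⟩ := Multiset.mem_map.1 h4
  have h5 := (mem_roots'.1 hx).2
  have h6 : x ^ 2 = ((p ^ a : ℕ) : AlgebraicClosure ℚ_[p]) := by
    have h7 := Polynomial.map_dvd (Int.castRingHom (AlgebraicClosure ℚ_[p])) hdvd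
    have h8 := h5.dvd h7
    rw [IsRoot.def] at h8
    simp only [Polynomial.map_pow, Polynomial.map_sub, map_X, map_C, eval_pow, eval_sub, eval_X,
      eval_C] at h8
    have h9 := eq_zero_of_pow_eq_zero h8
    rw [sub_eq_zero] at h9
    rw [h9]
    simp
  have h7 : (nv p x) ^ 2 = nv p (((p ^ a : ℕ) : AlgebraicClosure ℚ_[p])) := by
    rw [← map_pow, h6]
  have h8 : nv p (((p ^ a : ℕ) : AlgebraicClosure ℚ_[p])) = ((p : ℝ) ^ a)⁻¹ := by
    have h9 := nv_algebraMap p (((p ^ a : ℕ) : ℚ_[p]))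
    rw [map_natCast] at h9
    rw [h9]
    push_cast
    rw [norm_pow, Padic.norm_p, inv_pow]
  have h9 : nv p x = (p : ℝ) ^ (-((a * s j : ℚ) : ℝ)) := hxn
  have hp0 : (0 : ℝ) < p := by exact_mod_cast hp.out.pos
  rw [h8, h9, ← Real.rpow_natCast, ← Real.rpow_mul hp0.le, ← Real.rpow_natCast, ← Real.rpow_neg hp0.le,
    Real.rpow_right_inj hp0 (by exact_mod_cast hp.out.one_lt.ne')] at h7
  have ha' : (0 : ℝ) < a := by exact_mod_cast ha
  have hj' : ((s j : ℚ) : ℝ) < ((1 / 2 : ℚ) : ℝ) := Rat.cast_lt.2 hj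
  push_cast at h7 hj'
  nlinarith

end roots

end Pool.Agent.V5helper90.NS
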