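import Mathlib
import Pool.Agent.V5helper90.NS.Field

/-!
# The fields generated by Frobenius eigenvalues with flips: irreducible odd part and independence
-/

set_option autoImplicit false

open Polynomial NumberField IntermediateField Module

namespace Pool.Agent.V5helper90.NS

open Pool.Agent.W518.DN Pool.Agent.V5helper90.TB

variable {κ : Type} {p a : ℕ} {g : κ → ℕ} {P : κ → ℤ[X]}

/-- The properties of the Frobenius polynomials that are used. -/
structure Nice {κ : Type} (p a : ℕ) (g : κ → ℕ) (P : κ → ℤ[X]) : Prop where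
  flips : HasFlips p a g P
  weil : ∀ i, ∀ z : ℂ, ((P i).map (Int.castRingHom ℂ)).IsRoot z → ‖z‖ ^ 2 = (p : ℝ) ^ a
  sq : ∀ i, ∀ z : ℂ, ((P i).map (Int.castRingHom ℂ)).IsRoot z → z ^ 2 ≠ ((p ^ a : ℕ) : ℂ)

theorem Nice.conj [hp : Fact p.Prime] (h : Nice p a g P) {i : κ} {z : ℂ}
    (hz : ((P i).map (Int.castRingHom ℂ)).IsRoot z) :
    ((p ^ a : ℕ) : ℂ) / z = (starRingEnd ℂ) z :=
  conj_eq (pow_ne_zero a hp.out.ne_zero) (by rw [h.weil i z hz]; push_cast; rfl)

theorem Nice.conj_ne [hp : Fact p.Prime] (h : Nice p a g P) {i : κ} {z : ℂ}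
    (hz : ((P i).map (Int.castRingHom ℂ)).IsRoot z) : (starRingEnd ℂ) z ≠ z := by
  intro h1
  have h2 := h.conj hz
  rw [h1, div_eq_iff (root_ne h.flips hp.out hz), ← pow_two] at h2
  exact h.sq i z hz h2.symm

section field

variable {E : Type} [Field E] [NumberField E]

theorem root_map {i : κ} {z : E} (hz : ((P i).map (Int.castRingHom E)).IsRoot z)
    (φ : ℚ⟮z⟯ →+* ℂ) : ((P i).map (Int.castRingHom ℂ)).IsRoot (φ (AdjoinSimple.gen ℚ z)) := by
  have h1 : ((P i).map (Int.castRingHom ℚ⟮z⟯)).IsRoot (AdjoinSimple.gen ℚ z) := by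
    rw [IsRoot.def]
    apply (algebraMap ℚ⟮z⟯ E).injective
    rw [map_zero, ← eval₂_hom, ← eval_map, Polynomial.map_map]
    have h2 : (algebraMap ℚ⟮z⟯ E).comp (Int.castRingHom ℚ⟮z⟯) = Int.castRingHom E :=
      RingHom.ext_int _ _
    rw [h2]
    exact hz
  have h2 : (P i).map (Int.castRingHom ℂ) = ((P i).map (Int.castRingHom ℚ⟮z⟯)).map φ := by
    rw [Polynomial.map_map]; congr 1; exact RingHom.ext_int _ _
  rw [h2]
  exact h1.map

theorem ext_gen {z : E} {φ ψ : ℚ⟮z⟯ →+* ℂ}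
    (h : φ (AdjoinSimple.gen ℚ z) = ψ (AdjoinSimple.gen ℚ z)) : φ = ψ := by
  have hint : IsIntegral ℚ z := Algebra.IsIntegral.isIntegral z
  have h1 : RingHom.toRatAlgHom φ = RingHom.toRatAlgHom ψ :=
    (adjoin.powerBasis hint).algHom_ext h
  ext x
  exact congrArg (fun f : ℚ⟮z⟯ →ₐ[ℚ] ℂ => f x) h1

theorem isCM [IsCMField E] [hp : Fact p.Prime] (h : Nice p a g P) {i : κ} {z : E}
    (hz : ((P i).map (Int.castRingHom E)).IsRoot z) : IsCMField ℚ⟮z⟯ := by
  obtain ⟨φ⟩ : Nonempty (ℚ⟮z⟯ →+* ℂ) := inferInstance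
  refine Pool.Agent.Y46.KN1.cm E ℚ⟮z⟯ ⟨φ, fun h1 => ?_⟩
  have h2 := RingHom.congr_fun h1 (AdjoinSimple.gen ℚ z)
  exact h.conj_ne (root_map hz φ) h2

theorem oddIrreducible [IsCMField E] [hp : Fact p.Prime] (h : Nice p a g P) {i : κ} {z : E}
    (hz : ((P i).map (Int.castRingHom E)).IsRoot z) : OddIrreducible ℚ⟮z⟯ := by
  have := isCM h hz
  refine oddIrreducible_of_flips fun φ ψ h1 h2 => ?_
  have hρ := root_map hz φ
  have hρ' := root_map hz ψ
  obtain ⟨σ, hσ⟩ := flip_at h.flips hp.out i hρ'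
  refine ⟨σ, ext_gen ?_, ext_gen ?_⟩
  · refine (hσ i _ hρ).2 fun h3 => ?_
    rcases fibre (root_ne h.flips hp.out hρ) (root_ne h.flips hp.out hρ') h3 with h4 | h4
    · exact h1 (ext_gen h4.symm)
    · apply h2
      refine ext_gen ?_
      show _ = (starRingEnd ℂ) (φ (AdjoinSimple.gen ℚ z))
      rw [h4, h.conj hρ', Complex.conj_conj]
  · show σ (ψ (AdjoinSimple.gen ℚ z)) = (starRingEnd ℂ) (ψ (AdjoinSimple.gen ℚ z))
    rw [(hσ i _ hρ').1 rfl, h.conj hρ']

theorem flipped [IsCMField E] [hp : Fact p.Prime] (h : Nice p a g P) {i k : κ} (hik : P i ≠ P k)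
    {z : E} (hz : ((P i).map (Int.castRingHom E)).IsRoot z) {E' : Type} [Field E'] [NumberField E']
    [IsCMField E'] {z' : E'} (hz' : ((P k).map (Int.castRingHom E')).IsRoot z') :
    Flipped ℚ⟮z⟯ ℚ⟮z'⟯ := by
  have := isCM h hz
  have := isCM h hz'
  obtain ⟨φ⟩ : Nonempty (ℚ⟮z⟯ →+* ℂ) := inferInstance
  have hρ := root_map hz φ
  obtain ⟨σ, hσ⟩ := flip_at h.flips hp.out i hρ
  refine flipped_of_mv (oddIrreducible h hz) (τ := σ) (φ₁ := φ) (fun ψ => ext_gen ?_) ?_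
  · have hρ' := root_map hz' ψ
    refine (hσ k _ hρ').2 fun h3 => hik ?_
    obtain ⟨H, hP, hm, hd, hirr, -⟩ := h.flips
    have hq : p ^ a ≠ 0 := pow_ne_zero a hp.out.ne_zero
    have h4 := hρ
    have h5 := hρ'
    rw [hP i] at h4
    rw [hP k] at h5
    have h6 := (root_symm (hm i) (hd i) hq h4).2.2
    have h7 := (root_symm (hm k) (hd k) hq h5).2.2
    rw [h3] at h7
    have hmin : ∀ j, ((H j).map (Int.castRingHom ℂ)).IsRoot (φ (AdjoinSimple.gen ℚ z) +
        ((p ^ a : ℕ) : ℂ) / φ (AdjoinSimple.gen ℚ z)) →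
        minpoly ℚ (φ (AdjoinSimple.gen ℚ z) + ((p ^ a : ℕ) : ℂ) / φ (AdjoinSimple.gen ℚ z)) =
          (H j).map (Int.castRingHom ℚ) := by
      intro j hj
      refine (minpoly.eq_of_irreducible_of_monic (hirr j) ?_ ((hm j).map _)).symm
      rw [aeval_def, ← eval_map, Polynomial.map_map]
      have h1 : (algebraMap ℚ ℂ).comp (Int.castRingHom ℚ) = Int.castRingHom ℂ :=
        RingHom.ext_int _ _
      rw [h1]
      exact hj
    have h8 : H i = H k :=
      Polynomial.map_injective _ (RingHom.injective_int _) ((hmin i h6).symm.trans (hmin k h7))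
    have h9 : g i = g k := by rw [← hd i, ← hd k, h8]
    rw [hP i, hP k, h8, h9]
  · intro h1
    have h2 := RingHom.congr_fun h1 (AdjoinSimple.gen ℚ z)
    have h3 : σ (φ (AdjoinSimple.gen ℚ z)) = φ (AdjoinSimple.gen ℚ z) := h2
    rw [(hσ i _ hρ).1 rfl, h.conj hρ] at h3
    exact h.conj_ne hρ h3

theorem finrank_ge [IsCMField E] [hp : Fact p.Prime] (h : Nice p a g P) {i : κ} {z : E}
    (hz : ((P i).map (Int.castRingHom E)).IsRoot z) : 2 * g i ≤ finrank ℚ ℚ⟮z⟯ := by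
  have hcm := isCM h hz
  obtain ⟨H, hP, hm, hd, hirr, -⟩ := h.flips
  have hq : p ^ a ≠ 0 := pow_ne_zero a hp.out.ne_zero
  have hzr := hz
  rw [hP i] at hzr
  obtain ⟨hz0, -, hy⟩ := root_symm (hm i) (hd i) hq hzr
  set y : E := z + ((p ^ a : ℕ) : E) / z with hydef
  have hmin : minpoly ℚ y = (H i).map (Int.castRingHom ℚ) := by
    refine (minpoly.eq_of_irreducible_of_monic (hirr i) ?_ ((hm i).map _)).symm
    rw [aeval_def, ← eval_map, Polynomial.map_map]
    have h1 : (algebraMap ℚ E).comp (Int.castRingHom ℚ) = Int.castRingHom E := RingHom.ext_int _ _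
    rw [h1]
    exact hy
  have hyint : IsIntegral ℚ y := Algebra.IsIntegral.isIntegral y
  have hfy : finrank ℚ ℚ⟮y⟯ = g i := by
    rw [adjoin.finrank hyint, hmin, (hm i).natDegree_map, hd]
  have hle : ℚ⟮y⟯ ≤ ℚ⟮z⟯ := by
    rw [adjoin_simple_le_iff]
    have h1 : z ∈ ℚ⟮z⟯ := mem_adjoin_simple_self ℚ z
    exact add_mem h1 (div_mem (_root_.natCast_mem _ _) h1)
  obtain ⟨m, hm'⟩ := IntermediateField.finrank_dvd_of_le_right hle
  rw [hfy] at hm'
  have hne : finrank ℚ ℚ⟮z⟯ ≠ g i := by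
    intro h1
    have h2 : ℚ⟮y⟯ = ℚ⟮z⟯ := IntermediateField.eq_of_le_of_finrank_eq hle (by rw [hfy, h1])
    have h3 : z ∈ ℚ⟮y⟯ := by
      rw [h2]
      exact mem_adjoin_simple_self ℚ z
    obtain ⟨φ⟩ : Nonempty (E →+* ℂ) := inferInstance
    have hρ : ((P i).map (Int.castRingHom ℂ)).IsRoot (φ z) := by
      have h4 : (P i).map (Int.castRingHom ℂ) = ((P i).map (Int.castRingHom E)).map φ := by
        rw [Polynomial.map_map]; congr 1; exact RingHom.ext_int _ _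
      rw [h4]
      exact hz.map
    -- `φ y` is real
    have h5 : (starRingEnd ℂ) (φ y) = φ y := by
      rw [hydef, map_add, map_div₀, map_natCast, map_add, map_div₀, map_natCast, ← h.conj hρ]
      have hρ0 := root_ne h.flips hp.out hρ
      have hq' : ((p ^ a : ℕ) : ℂ) ≠ 0 := by exact_mod_cast hq
      field_simp
      ring
    let A : ℚ⟮y⟯ →ₐ[ℚ] ℂ := (RingHom.toRatAlgHom φ).comp ℚ⟮y⟯.val
    let B : ℚ⟮y⟯ →ₐ[ℚ] ℂ :=
      (RingHom.toRatAlgHom ((starRingEnd ℂ).comp φ)).comp ℚ⟮y⟯.val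
    have h6 : A = B := by
      refine (adjoin.powerBasis hyint).algHom_ext ?_
      exact h5.symm
    have h7 := congrArg (fun f : ℚ⟮y⟯ →ₐ[ℚ] ℂ => f ⟨z, h3⟩) h6
    have h8 : φ z = (starRingEnd ℂ) (φ z) := h7
    exact h.conj_ne hρ h8.symm
  have hpos : 0 < finrank ℚ ℚ⟮z⟯ := finrank_pos
  rcases Nat.lt_or_ge m 2 with h1 | h1
  · interval_cases m
    · omega
    · exact absurd (by rw [hm', mul_one]) hne
  · rw [hm', mul_comm]
    exact Nat.mul_le_mul_left _ h1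

end field

end Pool.Agent.V5helper90.NS
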