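import Mathlib
import Pool.Agent.V5helper90.NS.Field2
import Pool.Agent.V5helper90.NS.Defs
import Pool.Agent.Y137.MV.Defs

/-!
# The CM fields generated by Frobenius eigenvalues with flips; there are no multiplicative relations
-/

set_option autoImplicit false

open Polynomial NumberField IntermediateField Module

namespace Pool.Agent.V5helper90.NS

open Pool.Agent.W518.DN Pool.Agent.V5helper90.TB

/-- A totally complex number field with a complex conjugation is a CM field. -/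
theorem isCM_of_conj (K : Type) [Field K] [NumberField K] [IsTotallyComplex K] {σ : K ≃ₐ[ℚ] K}
    (hσ : ∀ φ : K →+* ℂ, ComplexEmbedding.IsConj φ σ) : IsCMField K := by
  let φ : K →+* ℂ := Classical.choice (inferInstance : Nonempty _)
  have hσ' : Nat.card (Subgroup.zpowers σ) = 2 := by
    rw [Nat.card_zpowers, ComplexEmbedding.orderOf_isConj_two_of_ne_one (hσ φ)]
    exact (ComplexEmbedding.isConj_ne_one_iff (hσ φ)).mpr <|
      IsTotallyComplex.complexEmbedding_not_isReal φ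
  have : Finite (Subgroup.zpowers σ) := Nat.finite_of_card_ne_zero (by positivity)
  let F := (FixedPoints.intermediateField (Subgroup.zpowers σ) : IntermediateField ℚ K)
  have hG : IsGaloisGroup (Subgroup.zpowers σ) F K :=
    { faithful := inferInstance
      commutes := ⟨fun g a b => by
        have h1 : g • (a : K) = (a : K) := a.2 g
        rw [IntermediateField.smul_def, IntermediateField.smul_def, smul_eq_mul, smul_eq_mul,
          smul_mul', h1]⟩
      isInvariant := ⟨fun b hb => ⟨⟨b, hb⟩, rfl⟩⟩ }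
  have : IsTotallyReal F := ⟨fun w ↦ by
    obtain ⟨W, rfl⟩ := w.comap_surjective (K := K)
    dsimp only
    rw [← InfinitePlace.mk_embedding W, InfinitePlace.comap_mk, InfinitePlace.isReal_mk_iff]
    exact ComplexEmbedding.IsConj.isReal_comp
     (σ := IsGaloisGroup.mulEquivAlgEquiv (Subgroup.zpowers σ) F K ⟨σ, Subgroup.mem_zpowers σ⟩)
      (hσ W.embedding)⟩
  have : Algebra.IsQuadraticExtension F K := ⟨by
    rw [← IsGaloisGroup.card_eq_finrank (Subgroup.zpowers σ) F K, hσ']⟩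
  exact IsCMField.ofCMExtension F K

section general

variable {κ : Type} {p a : ℕ} {g : κ → ℕ} {P : κ → ℤ[X]}

theorem monic_of (hF : HasFlips p a g P) (i : κ) : (P i).Monic := by
  obtain ⟨h, hP, hm, hd, -, -⟩ := hF
  rw [hP i]
  exact (lift_monic _ _ _ (hm i) (hd i)).1

/-- The conditions are inherited by subfamilies. -/
theorem HasFlips.comp {κ' : Type} (f : κ' → κ) (h : HasFlips p a g P) :
    HasFlips p a (g ∘ f) (P ∘ f) := by
  obtain ⟨H, h1, h2, h3, h4, h5⟩ := h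
  refine ⟨H ∘ f, fun i => h1 _, fun i => h2 _, fun i => h3 _, fun i => h4 _, fun i => ?_⟩
  obtain ⟨σ, y0, h6, h7⟩ := h5 (f i)
  exact ⟨σ, y0, h6, fun k π hπ => h7 (f k) π hπ⟩

theorem Nice.comp {κ' : Type} (f : κ' → κ) (h : Nice p a g P) : Nice p a (g ∘ f) (P ∘ f) :=
  ⟨h.flips.comp f, fun i => h.weil (f i), fun i => h.sq (f i)⟩

/-- Two members with a common root are equal. -/
theorem eq_of_trace [hp : Fact p.Prime] (hF : HasFlips p a g P) {i k : κ} {z z' : ℂ}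
    (hz : ((P i).map (Int.castRingHom ℂ)).IsRoot z)
    (hz' : ((P k).map (Int.castRingHom ℂ)).IsRoot z')
    (h3 : z + ((p ^ a : ℕ) : ℂ) / z = z' + ((p ^ a : ℕ) : ℂ) / z') : P i = P k := by
  obtain ⟨H, hP, hm, hd, hirr, -⟩ := hF
  have hq : p ^ a ≠ 0 := pow_ne_zero a hp.out.ne_zero
  have h4 := hz
  have h5 := hz'
  rw [hP i] at h4
  rw [hP k] at h5
  have h6 := (root_symm (hm i) (hd i) hq h4).2.2
  have h7 := (root_symm (hm k) (hd k) hq h5).2.2
  rw [← h3] at h7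
  have hmin : ∀ j, ((H j).map (Int.castRingHom ℂ)).IsRoot (z + ((p ^ a : ℕ) : ℂ) / z) →
      minpoly ℚ (z + ((p ^ a : ℕ) : ℂ) / z) = (H j).map (Int.castRingHom ℚ) := by
    intro j hj
    refine (minpoly.eq_of_irreducible_of_monic (hirr j) ?_ ((hm j).map _)).symm
    rw [aeval_def, ← eval_map, Polynomial.map_map]
    have h1 : (algebraMap ℚ ℂ).comp (Int.castRingHom ℚ) = Int.castRingHom ℂ :=
      RingHom.ext_int _ _
    rw [h1]
    exact hj
  have h8 : H i = H k :=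
    Polynomial.map_injective _ (RingHom.injective_int _) ((hmin i h6).symm.trans (hmin k h7))
  have h9 : g i = g k := by rw [← hd i, ← hd k, h8]
  rw [hP i, hP k, h8, h9]

section field

variable {E : Type} [Field E] [CharZero E]

theorem root_map' {i : κ} {z : E} (hz : ((P i).map (Int.castRingHom E)).IsRoot z)
    (φ : ℚ⟮z⟯ →+* ℂ) : ((P i).map (Int.castRingHom ℂ)).IsRoot (φ (AdjoinSimple.gen ℚ z)) := by
  have h1 : ((P i).map (Int.castRingHom ℚ⟮z⟯)).IsRoot (AdjoinSimple.gen ℚ z) := by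
    rw [IsRoot.def]
    apply (algebraMap ℚ⟮z⟯ E).injective
    rw [map_zero, ← eval₂_hom, ← eval_map, Polynomial.map_map]
    have h2 : (algebraMap ℚ⟮z⟯ E).comp (Int.castRingHom ℚ⟮z⟯) = Int.castRingHom E :=
      RingHom.ext_int _ _
    rw [h2]
    exact hz
  have h2 : (P i).map (Int.castRingHom ℂ) = ((P i).map (Int.castRingHom ℚ⟮z⟯)).map φ := by
    rw [Polynomial.map_map]; congr 1; exact RingHom.ext_int _ _
  rw [h2]
  exact h1.map

theorem gen_root {i : κ} {z : E} (hz : ((P i).map (Int.castRingHom E)).IsRoot z) :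
    ((P i).map (Int.castRingHom ℚ⟮z⟯)).IsRoot (AdjoinSimple.gen ℚ z) := by
  rw [IsRoot.def]
  apply (algebraMap ℚ⟮z⟯ E).injective
  rw [map_zero, ← eval₂_hom, ← eval_map, Polynomial.map_map]
  have h2 : (algebraMap ℚ⟮z⟯ E).comp (Int.castRingHom ℚ⟮z⟯) = Int.castRingHom E :=
    RingHom.ext_int _ _
  rw [h2]
  exact hz

theorem ext_gen' {z : E} (hint : IsIntegral ℚ z) {φ ψ : ℚ⟮z⟯ →+* ℂ}
    (h : φ (AdjoinSimple.gen ℚ z) = ψ (AdjoinSimple.gen ℚ z)) : φ = ψ := by
  have h1 : RingHom.toRatAlgHom φ = RingHom.toRatAlgHom ψ :=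
    (adjoin.powerBasis hint).algHom_ext h
  ext x
  exact congrArg (fun f : ℚ⟮z⟯ →ₐ[ℚ] ℂ => f x) h1

theorem integral_root {i : κ} (hm : (P i).Monic) {z : E}
    (hz : ((P i).map (Int.castRingHom E)).IsRoot z) : IsIntegral ℚ z := by
  refine ⟨(P i).map (Int.castRingHom ℚ), hm.map _, ?_⟩
  rw [← eval_map, Polynomial.map_map]
  have h1 : (algebraMap ℚ E).comp (Int.castRingHom ℚ) = Int.castRingHom E := RingHom.ext_int _ _
  rw [h1]
  exact hz

end field

/-- The field generated by a complex root is a CM field. -/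
theorem isCM_complex [hp : Fact p.Prime] (h : Nice p a g P) {i : κ} {z : ℂ}
    (hz : ((P i).map (Int.castRingHom ℂ)).IsRoot z) :
    ∃ _ : NumberField ℚ⟮z⟯, IsCMField ℚ⟮z⟯ := by
  have hint : IsIntegral ℚ z := integral_root (monic_of h.flips i) hz
  have hfin : FiniteDimensional ℚ ℚ⟮z⟯ := adjoin.finiteDimensional hint
  have hNF : NumberField ℚ⟮z⟯ := ⟨⟩
  refine ⟨hNF, ?_⟩
  let pb := adjoin.powerBasis hint
  set x : ℚ⟮z⟯ := AdjoinSimple.gen ℚ z with hxdef
  have hconj : ∀ s : ℚ⟮z⟯ →+* ℂ, ((p ^ a : ℕ) : ℂ) / s x = (starRingEnd ℂ) (s x) :=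
    fun s => h.conj (root_map' hz s)
  have hx0 : x ≠ 0 := by
    intro h0
    have h1 := root_ne h.flips hp.out (root_map' hz (algebraMap ℚ⟮z⟯ ℂ))
    apply h1
    rw [← hxdef, h0, map_zero]
  have hx' : aeval (((p ^ a : ℕ) : ℚ⟮z⟯) / x) (minpoly ℚ pb.gen) = 0 := by
    apply (algebraMap ℚ⟮z⟯ ℂ).injective
    rw [map_zero, ← aeval_algebraMap_apply, map_div₀, map_natCast, hconj]
    have h1 := Polynomial.aeval_algHom_apply (RingHom.toRatAlgHom (starRingEnd ℂ))
      (algebraMap ℚ⟮z⟯ ℂ x) (minpoly ℚ pb.gen)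
    have h2 : aeval (algebraMap ℚ⟮z⟯ ℂ x) (minpoly ℚ pb.gen) = 0 := by
      rw [aeval_algebraMap_apply]
      have h3 : aeval x (minpoly ℚ pb.gen) = 0 := minpoly.aeval ℚ pb.gen
      rw [h3, map_zero]
    rw [h2, map_zero] at h1
    exact h1
  let j : ℚ⟮z⟯ →ₐ[ℚ] ℚ⟮z⟯ := pb.lift _ hx'
  have hjx : j x = ((p ^ a : ℕ) : ℚ⟮z⟯) / x := pb.lift_gen _ hx'
  have hj : ∀ (s : ℚ⟮z⟯ →+* ℂ) y, s (j y) = (starRingEnd ℂ) (s y) := by
    intro s y
    have h1 : s.comp (j : ℚ⟮z⟯ →+* ℚ⟮z⟯) = (starRingEnd ℂ).comp s := by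
      refine ext_gen' hint ?_
      show s (j x) = (starRingEnd ℂ) (s x)
      rw [hjx, map_div₀, map_natCast, hconj]
    exact RingHom.congr_fun h1 y
  have hjj : ∀ y, j (j y) = y := by
    intro y
    obtain ⟨s⟩ : Nonempty (ℚ⟮z⟯ →+* ℂ) := inferInstance
    apply s.injective
    rw [hj, hj, Complex.conj_conj]
  let σ : ℚ⟮z⟯ ≃ₐ[ℚ] ℚ⟮z⟯ := AlgEquiv.ofAlgHom j j (AlgHom.ext hjj) (AlgHom.ext hjj)
  have htc : IsTotallyComplex ℚ⟮z⟯ := by
    rw [isTotallyComplex_iff]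
    intro w
    rw [← InfinitePlace.mk_embedding w, InfinitePlace.isComplex_mk_iff]
    intro h1
    have h2 := RingHom.congr_fun h1 x
    exact h.conj_ne (root_map' hz w.embedding) h2
  refine isCM_of_conj ℚ⟮z⟯ (σ := σ) fun φ => ?_
  ext y
  exact (hj φ y).symm

variable [hp : Fact p.Prime]

/-- There is a CM field with a root of `P i`. -/
theorem exists_cm (h : Nice p a g P) (i : κ) (hg : 1 ≤ g i) :
    ∃ (E : Type) (_ : Field E) (_ : NumberField E) (_ : IsCMField E) (z : E),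
      ((P i).map (Int.castRingHom E)).IsRoot z := by
  have hm := monic_of h.flips i
  have hdeg : ((P i).map (Int.castRingHom ℂ)).degree ≠ 0 := by
    obtain ⟨H, hP, hmH, hd, -, -⟩ := h.flips
    have h1 := (lift_monic ((p ^ a : ℕ) : ℤ) (g i) (H i) (hmH i) (hd i)).2
    rw [← hP i] at h1
    rw [Polynomial.degree_eq_natDegree (hm.map _).ne_zero, hm.natDegree_map, h1]
    exact_mod_cast (by omega : 2 * g i ≠ 0)
  obtain ⟨z, hz⟩ := IsAlgClosed.exists_root _ hdeg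
  obtain ⟨h1, h2⟩ := isCM_complex h hz
  exact ⟨ℚ⟮z⟯, inferInstance, h1, h2, AdjoinSimple.gen ℚ z, gen_root hz⟩

/-- **There are no multiplicative relations** between the eigenvalues. -/
theorem angle [Fintype κ] (h : Nice p a g P)
    (hT : ∀ i, ∀ z : ℂ, ((P i).map (Int.castRingHom ℂ)).IsRoot z → ∀ m : ℕ, 0 < m →
      z ^ (2 * m) ≠ ((p ^ a : ℕ) : ℂ) ^ m) (hinj : Function.Injective P)
    {F : κ → Type} [∀ i, Field (F i)] [∀ i, NumberField (F i)] (π : ∀ i, F i)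
    (hπ : ∀ i, ((P i).map (Int.castRingHom (F i))).IsRoot (π i))
    (hgen : ∀ i (φ ψ : F i →+* ℂ), φ (π i) = ψ (π i) → φ = ψ) :
    Pool.Agent.Y137.MV.MaximalAngleRank (p ^ a) π := by
  classical
  intro r n hrel i φ
  have hq0 : ((p ^ a : ℕ) : ℂ) ≠ 0 := by exact_mod_cast pow_ne_zero a hp.out.ne_zero
  have hroot : ∀ k (ψ : F k →+* ℂ), ((P k).map (Int.castRingHom ℂ)).IsRoot (ψ (π k)) := by
    intro k ψ
    have h2 : (P k).map (Int.castRingHom ℂ) = ((P k).map (Int.castRingHom (F k))).map ψ := by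
      rw [Polynomial.map_map]; congr 1; exact RingHom.ext_int _ _
    rw [h2]
    exact (hπ k).map
  have hne : ∀ k (ψ : F k →+* ℂ), ψ (π k) ≠ 0 := fun k ψ => root_ne h.flips hp.out (hroot k ψ)
  obtain ⟨σ, hσ⟩ := flip_at h.flips hp.out i (hroot i φ)
  set ρ : ℂ := φ (π i) with hρdef
  have hρ0 : ρ ≠ 0 := hne i φ
  have hcj : ((p ^ a : ℕ) : ℂ) / ρ = (starRingEnd ℂ) ρ := h.conj (hroot i φ)
  have hcρ : (ComplexEmbedding.conjugate φ) (π i) = ((p ^ a : ℕ) : ℂ) / ρ := by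
    rw [hcj]
    rfl
  have h1 : σ ρ = ((p ^ a : ℕ) : ℂ) / ρ := (hσ i ρ (hroot i φ)).1 rfl
  have h2 : σ (((p ^ a : ℕ) : ℂ) / ρ) = ρ := by
    rw [map_div₀, map_natCast, h1]
    field_simp
  have hfix : ∀ x : Σ i, (F i →+* ℂ), x ≠ ⟨i, φ⟩ → x ≠ ⟨i, ComplexEmbedding.conjugate φ⟩ →
      σ (x.2 (π x.1)) = x.2 (π x.1) := by
    rintro ⟨k, ψ⟩ hx1 hx2
    refine (hσ k _ (hroot k ψ)).2 fun h3 => ?_
    have hki : k = i := hinj (eq_of_trace h.flips (hroot k ψ) (hroot i φ) h3)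
    subst hki
    rcases fibre (hne k ψ) hρ0 h3 with h4 | h4
    · exact hx1 (by rw [hgen k ψ φ h4])
    · apply hx2
      rw [← hcρ] at h4
      rw [hgen k ψ _ h4]
  have hx01 : (⟨i, φ⟩ : Σ i, (F i →+* ℂ)) ≠ ⟨i, ComplexEmbedding.conjugate φ⟩ := by
    intro h3
    have h4 : φ = ComplexEmbedding.conjugate φ := eq_of_heq (Sigma.mk.inj h3).2
    have h5 := RingHom.congr_fun h4 (π i)
    rw [hcρ, hcj] at h5
    exact h.conj_ne (hroot i φ) h5.symm
  -- the relation and its image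
  have h3 : ∏ x : Σ i, (F i →+* ℂ), (σ (x.2 (π x.1))) ^ n x = ((p ^ a : ℕ) : ℂ) ^ r := by
    have h4 := congrArg σ hrel
    rw [map_prod, map_zpow₀, map_natCast] at h4
    rw [← h4]
    exact Finset.prod_congr rfl fun x _ => (map_zpow₀ σ _ _).symm
  have h4 : ∏ x : Σ i, (F i →+* ℂ), ((σ (x.2 (π x.1))) ^ n x / (x.2 (π x.1)) ^ n x) = 1 := by
    rw [Finset.prod_div_distrib, h3, hrel]
    exact div_self (zpow_ne_zero _ hq0)
  rw [Finset.prod_eq_mul ⟨i, φ⟩ ⟨i, ComplexEmbedding.conjugate φ⟩ hx01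
    (fun x _ hx => by
      rw [hfix x hx.1 hx.2]
      exact div_self (zpow_ne_zero _ (hne _ _)))
    (fun h => absurd (Finset.mem_univ _) h) (fun h => absurd (Finset.mem_univ _) h)] at h4
  simp only at h4
  rw [hcρ, h2, ← hρdef, h1] at h4
  set e0 := n ⟨i, φ⟩
  set e1 := n ⟨i, ComplexEmbedding.conjugate φ⟩
  by_contra hne01
  have h5 : ρ ^ (2 * (e1 - e0)) = ((p ^ a : ℕ) : ℂ) ^ (e1 - e0) := by
    rw [div_zpow, div_zpow] at h4
    have h6 : ρ ^ (2 * (e1 - e0)) = ρ ^ e1 * ρ ^ e1 / (ρ ^ e0 * ρ ^ e0) := by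
      rw [two_mul, zpow_add₀ hρ0, zpow_sub₀ hρ0]
      field_simp
    rw [h6, zpow_sub₀ hq0]
    have e0' := zpow_ne_zero e0 hρ0
    have e1' := zpow_ne_zero e1 hρ0
    have q0' := zpow_ne_zero e0 hq0
    have q1' := zpow_ne_zero e1 hq0
    field_simp at h4 ⊢
    linear_combination h4
  have hE : e1 - e0 ≠ 0 := fun h6 => hne01 (by omega)
  obtain ⟨m, hm | hm⟩ := Int.eq_nat_or_neg (e1 - e0)
  · have hm0 : 0 < m := by
      rcases Nat.eq_zero_or_pos m with h6 | h6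
      · rw [h6] at hm
        exact absurd hm hE
      · exact h6
    refine hT i ρ (hroot i φ) m hm0 ?_
    rw [hm] at h5
    exact_mod_cast h5
  · have hm0 : 0 < m := by
      rcases Nat.eq_zero_or_pos m with h6 | h6
      · rw [h6] at hm
        exact absurd (by simpa using hm) hE
      · exact h6
    refine hT i ρ (hroot i φ) m hm0 ?_
    rw [hm, mul_neg, zpow_neg, zpow_neg, inv_inj] at h5
    exact_mod_cast h5

end general

end Pool.Agent.V5helper90.NS
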