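import Mathlib
import Pool.Agent.V5helper90.NS.CM

/-!
# Frobenius eigenvalues in a Newton stratum that is not supersingular; density of the good families
-/

set_option autoImplicit false

open Polynomial NumberField IntermediateField Module

namespace Pool.Agent.V5helper90.NS

open Pool.Agent.W518.DN Pool.Agent.V5helper90.TB

section pow

variable {κ : Type} {p a : ℕ} {g : κ → ℕ} {P : κ → ℤ[X]}

/-- No power of a root is a power of `q`. -/
theorem pow_ne [hp : Fact p.Prime] (hF : HasFlips p a g P) {i : κ}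
    (hw : ∀ z : ℂ, ((P i).map (Int.castRingHom ℂ)).IsRoot z → ‖z‖ ^ 2 = (p : ℝ) ^ a)
    (ha : 0 < a) {G : ℕ} {s : Fin G → ℚ} (hsl : Pool.Agent.V5helper90.NS.HasSlopes p a s (P i))
    (hs : ∃ j, s j < 1 / 2) {ρ : ℂ}
    (hρ : ((P i).map (Int.castRingHom ℂ)).IsRoot ρ) {m : ℕ} (hm0 : 0 < m) :
    ρ ^ (2 * m) ≠ ((p ^ a : ℕ) : ℂ) ^ m := by
  classical
  intro hsq
  have hPm : (P i).Monic := monic_of hF i
  have hall : ∀ x : ℂ, ((P i).map (Int.castRingHom ℂ)).IsRoot x →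
      x ^ (2 * m) = ((p ^ a : ℕ) : ℂ) ^ m := by
    intro x hx
    obtain ⟨τ, rfl⟩ := trans_roots hF hp.out hw hρ hx
    rw [← map_pow, hsq, map_pow, map_natCast]
  have hdvd : P i ∣ (X ^ (2 * m) - C (((p ^ a : ℕ) : ℤ) ^ m)) ^
      Multiset.card ((P i).map (Int.castRingHom ℂ)).roots := by
    rw [← Polynomial.map_dvd_map (Int.castRingHom ℂ) (RingHom.injective_int _) hPm]
    have h1 : ((P i).map (Int.castRingHom ℂ)) =
        (((P i).map (Int.castRingHom ℂ)).roots.map fun x => X - C x).prod := by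
      have h2 := (IsAlgClosed.splits ((P i).map (Int.castRingHom ℂ))).eq_prod_roots
      rwa [(hPm.map _).leadingCoeff, C_1, one_mul] at h2
    conv_lhs => rw [h1]
    have h3 : ((X ^ (2 * m) - C (((p ^ a : ℕ) : ℤ) ^ m)) ^
        Multiset.card ((P i).map (Int.castRingHom ℂ)).roots).map (Int.castRingHom ℂ) =
        (((P i).map (Int.castRingHom ℂ)).roots.map fun _ =>
          (X ^ (2 * m) - C (((p ^ a : ℕ) : ℂ) ^ m))).prod := by
      rw [Multiset.map_const', Multiset.prod_replicate]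
      simp
    rw [h3]
    refine Multiset.prod_dvd_prod_of_dvd _ _ fun x hx => ?_
    rw [dvd_iff_isRoot, IsRoot.def]
    simp only [eval_sub, eval_pow, eval_X, eval_C]
    rw [hall x (mem_roots'.1 hx).2, sub_self]
  -- the slopes
  obtain ⟨j, hj⟩ := hs
  have hp2 := hp.out.one_lt
  have h4 : (p : ℝ) ^ (-((a * s j : ℚ) : ℝ)) ∈ ((P i).map (Int.castRingHom
      (AlgebraicClosure ℚ_[p]))).roots.map
      (fun x => spectralNorm ℚ_[p] (AlgebraicClosure ℚ_[p]) x) := by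
    rw [hsl]
    exact Multiset.mem_add.2 (Or.inl (Multiset.mem_map_of_mem _ (Finset.mem_univ j)))
  obtain ⟨x, hx, hxn⟩ := Multiset.mem_map.1 h4
  have h5 := (mem_roots'.1 hx).2
  have h6 : x ^ (2 * m) = ((p ^ a : ℕ) : AlgebraicClosure ℚ_[p]) ^ m := by
    have h7 := Polynomial.map_dvd (Int.castRingHom (AlgebraicClosure ℚ_[p])) hdvd
    have h8 := h5.dvd h7
    rw [IsRoot.def] at h8
    simp only [Polynomial.map_pow, Polynomial.map_sub, map_X, map_C, eval_pow, eval_sub, eval_X,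
      eval_C, map_pow] at h8
    have h9 := eq_zero_of_pow_eq_zero h8
    rw [sub_eq_zero] at h9
    rw [h9]
    simp
  have h7 : (nv p x) ^ (2 * m) = nv p (((p ^ a : ℕ) : AlgebraicClosure ℚ_[p])) ^ m := by
    rw [← map_pow, h6, map_pow]
  have h8 : nv p (((p ^ a : ℕ) : AlgebraicClosure ℚ_[p])) = ((p : ℝ) ^ a)⁻¹ := by
    have h9 := nv_algebraMap p (((p ^ a : ℕ) : ℚ_[p]))
    rw [map_natCast] at h9
    rw [h9]
    push_cast
    rw [norm_pow, Padic.norm_p, inv_pow]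
  have h9 : nv p x = (p : ℝ) ^ (-((a * s j : ℚ) : ℝ)) := hxn
  have hp0 : (0 : ℝ) < p := by exact_mod_cast hp.out.pos
  rw [pow_mul] at h7
  have h7' := (pow_left_inj₀ (by rw [h9]; positivity) (by rw [h8]; positivity) hm0.ne').1 h7
  rw [h8, h9, ← Real.rpow_natCast, ← Real.rpow_mul hp0.le, ← Real.rpow_natCast, ← Real.rpow_neg hp0.le,
    Real.rpow_right_inj hp0 (by exact_mod_cast hp.out.one_lt.ne')] at h7'
  have ha' : (0 : ℝ) < a := by exact_mod_cast ha
  have hj' : ((s j : ℚ) : ℝ) < ((1 / 2 : ℚ) : ℝ) := Rat.cast_lt.2 hj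
  push_cast at h7' hj'
  nlinarith

/-- The properties of almost all families in a Newton stratum. -/
structure VeryNice {κ : Type} (p a : ℕ) (g : κ → ℕ) (P : κ → ℤ[X]) : Prop where
  nice : Nice p a g P
  pow : ∀ i, ∀ z : ℂ, ((P i).map (Int.castRingHom ℂ)).IsRoot z → ∀ m : ℕ, 0 < m →
    z ^ (2 * m) ≠ ((p ^ a : ℕ) : ℂ) ^ m

theorem veryNice_of_mem [hp : Fact p.Prime] {s : ∀ i, Fin (g i) → ℚ}
    (hss : ∀ i, ∃ j, s i j < 1 / 2) (ha : 0 < a)
    (hP : P ∈ Pool.Agent.V5helper90.NS.Stratum g s p a) (hF : HasFlips p a g P) :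
    VeryNice p a g P :=
  ⟨⟨hF, fun i => (hP i).1.weil,
    fun i _ hz => sq_ne hF (hP i).1.weil ha (hP i).2.2 (hss i) hz⟩,
    fun i _ hz _ hm => pow_ne hF (hP i).1.weil ha (hP i).2.2 (hss i) hz hm⟩

theorem VeryNice.comp {κ' : Type} (f : κ' → κ) (h : VeryNice p a g P) :
    VeryNice p a (g ∘ f) (P ∘ f) :=
  ⟨h.nice.comp f, fun i => h.pow (f i)⟩

end pow

/-- **Density one in every Newton stratum.** -/
theorem density_very {κ : Type} [Fintype κ] [Nonempty κ] (p : ℕ) [Fact p.Prime]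
    (g : κ → ℕ) (hg : ∀ i, 1 ≤ g i) (s : ∀ i, Fin (g i) → ℚ) (hs : ∀ i, IsNewtonPolygon (s i))
    (hss : ∀ i, ∃ j, s i j < 1 / 2) (N : ℕ) (ε : ℝ) (hε : 0 < ε)
    (Q : ℕ → (κ → ℤ[X]) → Prop) (hQ : ∀ a P, 0 < a → P ∈ Pool.Agent.V5helper90.NS.Stratum g s p a →
      VeryNice p a g P → Q a P) :
    ∃ a₀ : ℕ, ∀ a, a₀ ≤ a →
      (Pool.Agent.V5helper90.NS.Stratum g s p a).Finite ∧
      N ≤ (Pool.Agent.V5helper90.NS.Stratum g s p a).ncard ∧
      ({P ∈ Pool.Agent.V5helper90.NS.Stratum g s p a | ¬ Q a P}.ncard : ℝ) ≤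
        ε * ((Pool.Agent.V5helper90.NS.Stratum g s p a).ncard : ℝ) := by
  classical
  obtain ⟨a0, ha0⟩ := density_flips g s p hg
    (fun i => ⟨(hs i).mono, (hs i).nonneg, (hs i).le_half, (hs i).integral⟩) hss N ε hε
  refine ⟨a0 + 1, fun a ha => ?_⟩
  obtain ⟨h1, h2, h3⟩ := ha0 a (by omega)
  refine ⟨h1, h2, le_trans ?_ h3⟩
  have h4 : {P ∈ Pool.Agent.V5helper90.NS.Stratum g s p a | ¬ Q a P} ⊆
      {P ∈ Pool.Agent.W518.DN.Stratum g s p a | ¬ HasFlips p a g P} := by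
    rintro P ⟨hP, hPQ⟩
    exact ⟨hP, fun hF => hPQ (hQ a P (by omega) hP (veryNice_of_mem hss (by omega) hP hF))⟩
  have h5 := Set.ncard_le_ncard h4 (h1.subset (Set.sep_subset _ _))
  exact_mod_cast h5

end Pool.Agent.V5helper90.NS
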