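import Mathlib
import Pool.Agent.V5helper90.NS.Pow

/-!
# Almost all families in a Newton stratum have different members
-/

set_option autoImplicit false

open Polynomial

namespace Pool.Agent.V5helper90.NS

section count

variable {κ : Type} {α : Type}

/-- The families in a product of sets with equal members at two places. -/
theorem ncard_eq_places [DecidableEq κ] (S : κ → Set α) (hfin : {P : κ → α | ∀ i, P i ∈ S i}.Finite)
    {i k : κ} (hik : i ≠ k) (hSk : (S k).Finite) :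
    {P : κ → α | (∀ i, P i ∈ S i) ∧ P i = P k}.ncard * (S k).ncard ≤
      {P : κ → α | ∀ i, P i ∈ S i}.ncard := by
  classical
  rw [← Set.ncard_prod]
  refine Set.ncard_le_ncard_of_injOn (fun x : (κ → α) × α => Function.update x.1 k x.2) ?_ ?_ hfin
  · rintro ⟨P, Y⟩ ⟨⟨hP, -⟩, hY⟩ j
    by_cases hj : j = k
    · subst hj
      simpa using hY
    · simp only [Function.update_of_ne hj]
      exact hP j
  · rintro ⟨P, Y⟩ ⟨⟨hP, hPe⟩, hY⟩ ⟨P', Y'⟩ ⟨⟨hP', hPe'⟩, hY'⟩ h
    simp only at h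
    have h1 : Y = Y' := by
      have := congrFun h k
      simpa using this
    have h2 : ∀ j, j ≠ k → P j = P' j := by
      intro j hj
      have := congrFun h j
      simpa [Function.update_of_ne hj] using this
    have h3 : P = P' := by
      funext j
      by_cases hj : j = k
      · subst hj
        have h4 := h2 i hik
        simp only at hPe hPe'
        rw [← hPe, ← hPe', h4]
      · exact h2 j hj
    rw [h1, h3]

end count

/-- One member. -/
def Member (g : ℕ) (s : Fin g → ℚ) (p : ℕ) [Fact p.Prime] (a : ℕ) : Set ℤ[X] :=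
  {P | Pool.Agent.W518.TC.IsFrobPoly p a P ∧ P.natDegree = 2 * g ∧ HasSlopes p a s P}

theorem stratum_member {κ : Type} (g : κ → ℕ) (s : ∀ i, Fin (g i) → ℚ) (p : ℕ) [Fact p.Prime]
    (a : ℕ) : Stratum g s p a = {P | ∀ i, P i ∈ Member (g i) (s i) p a} := rfl

theorem member_large (p : ℕ) [Fact p.Prime] (g : ℕ) (hg : 1 ≤ g) (s : Fin g → ℚ)
    (hs : IsNewtonPolygon s) (hss : ∃ j, s j < 1 / 2) (N : ℕ) :
    ∃ a₀ : ℕ, ∀ a, a₀ ≤ a → (Member g s p a).Finite ∧ N ≤ (Member g s p a).ncard := by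
  obtain ⟨a₀, h⟩ := density_very (κ := Unit) p (fun _ => g) (fun _ => hg) (fun _ => s)
    (fun _ => hs) (fun _ => hss) N 1 one_pos (fun _ _ => True) (fun _ _ _ _ _ => trivial)
  refine ⟨a₀, fun a ha => ?_⟩
  obtain ⟨h1, h2, -⟩ := h a ha
  have h3 : Stratum (fun _ : Unit => g) (fun _ => s) p a =
      (fun P : Unit → ℤ[X] => P ()) ⁻¹' (Member g s p a) := by
    ext P
    rw [stratum_member, Set.mem_setOf_eq, Set.mem_preimage]
    exact ⟨fun h => h (), fun h _ => h⟩
  have hbij : Function.Bijective (fun P : Unit → ℤ[X] => P ()) :=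
    ⟨fun P Q h => funext fun _ => h, fun x => ⟨fun _ => x, rfl⟩⟩
  have h4 : Member g s p a =
      (fun P : Unit → ℤ[X] => P ()) '' Stratum (fun _ : Unit => g) (fun _ => s) p a := by
    rw [h3, Set.image_preimage_eq _ hbij.2]
  rw [h4]
  exact ⟨h1.image _, by rw [Set.ncard_image_of_injective _ hbij.1]; exact h2⟩

/-- **Density one in every Newton stratum, with different members.** -/
theorem density_inj {κ : Type} [Fintype κ] [Nonempty κ] (p : ℕ) [Fact p.Prime]
    (g : κ → ℕ) (hg : ∀ i, 1 ≤ g i) (s : ∀ i, Fin (g i) → ℚ) (hs : ∀ i, IsNewtonPolygon (s i))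
    (hss : ∀ i, ∃ j, s i j < 1 / 2) (N : ℕ) (ε : ℝ) (hε : 0 < ε)
    (Q : ℕ → (κ → ℤ[X]) → Prop) (hQ : ∀ a P, 0 < a → P ∈ Stratum g s p a →
      VeryNice p a g P → Function.Injective P → Q a P) :
    ∃ a₀ : ℕ, ∀ a, a₀ ≤ a →
      (Stratum g s p a).Finite ∧ N ≤ (Stratum g s p a).ncard ∧
      ({P ∈ Stratum g s p a | ¬ Q a P}.ncard : ℝ) ≤ ε * ((Stratum g s p a).ncard : ℝ) := by
  classical
  set c : ℝ := (Fintype.card κ : ℝ) ^ 2 with hc
  have hc0 : 0 < c := by
    have : 0 < Fintype.card κ := Fintype.card_pos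
    positivity
  obtain ⟨M, hM⟩ := exists_nat_gt (2 * c / ε)
  have hM0 : (0 : ℝ) < M := lt_trans (by positivity) hM
  obtain ⟨a₀, h₀⟩ := density_very p g hg s hs hss N (ε / 2) (by positivity)
    (fun a P => VeryNice p a g P) (fun _ _ _ _ h => h)
  choose a₁ h₁ using fun i => member_large p (g i) (hg i) (s i) (hs i) (hss i) M
  refine ⟨a₀ + ∑ i, a₁ i + 1, fun a ha => ?_⟩
  obtain ⟨hfin, hN, hbad⟩ := h₀ a (by omega)
  refine ⟨hfin, hN, ?_⟩
  set S := Stratum g s p a with hS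
  have hmem : ∀ i, (Member (g i) (s i) p a).Finite ∧ M ≤ (Member (g i) (s i) p a).ncard := by
    intro i
    refine h₁ i a ?_
    have := Finset.single_le_sum (f := a₁) (fun j _ => Nat.zero_le _) (Finset.mem_univ i)
    omega
  -- the families with equal members
  let E : κ × κ → Set (κ → ℤ[X]) := fun x => {P | P ∈ S ∧ P x.1 = P x.2}
  have hE : ∀ x : κ × κ, x.1 ≠ x.2 → ((E x).ncard : ℝ) ≤ (S.ncard : ℝ) / M := by
    rintro ⟨i, k⟩ hik
    rw [le_div_iff₀ hM0]
    have h1 := ncard_eq_places (fun i => Member (g i) (s i) p a) hfin hik (hmem k).1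
    have h2 : (E (i, k)).ncard * M ≤ S.ncard :=
      (Nat.mul_le_mul_left _ (hmem k).2).trans h1
    exact_mod_cast h2
  have hsub : {P ∈ S | ¬ Q a P} ⊆ {P ∈ S | ¬ VeryNice p a g P} ∪
      ⋃ x ∈ (Finset.univ.filter fun x : κ × κ => x.1 ≠ x.2), E x := by
    rintro P ⟨hP, hPQ⟩
    by_cases h1 : VeryNice p a g P
    · right
      have h2 : ¬ Function.Injective P := fun h2 => hPQ (hQ a P (by omega) hP h1 h2)
      rw [Function.Injective] at h2
      push Not at h2
      obtain ⟨i, k, h3, h4⟩ := h2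
      rw [Set.mem_iUnion₂]
      exact ⟨(i, k), by simp [h4], hP, h3⟩
    · left
      exact ⟨hP, h1⟩
  have hfinE : ∀ x, (E x).Finite := fun x => hfin.subset fun P hP => hP.1
  have hU : ((⋃ x ∈ (Finset.univ.filter fun x : κ × κ => x.1 ≠ x.2), E x).ncard : ℝ) ≤
      c * ((S.ncard : ℝ) / M) := by
    have h1 : (⋃ x ∈ (Finset.univ.filter fun x : κ × κ => x.1 ≠ x.2), E x).ncard ≤
        ∑ x ∈ (Finset.univ.filter fun x : κ × κ => x.1 ≠ x.2), (E x).ncard :=
      Finset.set_ncard_biUnion_le _ _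
    calc ((⋃ x ∈ (Finset.univ.filter fun x : κ × κ => x.1 ≠ x.2), E x).ncard : ℝ)
        ≤ ∑ x ∈ (Finset.univ.filter fun x : κ × κ => x.1 ≠ x.2), ((E x).ncard : ℝ) := by
          exact_mod_cast h1
      _ ≤ ∑ x ∈ (Finset.univ.filter fun x : κ × κ => x.1 ≠ x.2), ((S.ncard : ℝ) / M) :=
          Finset.sum_le_sum fun x hx => hE x (Finset.mem_filter.1 hx).2
      _ = ((Finset.univ.filter fun x : κ × κ => x.1 ≠ x.2).card : ℝ) * ((S.ncard : ℝ) / M) := by
          rw [Finset.sum_const, nsmul_eq_mul]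
      _ ≤ c * ((S.ncard : ℝ) / M) := by
          refine mul_le_mul_of_nonneg_right ?_ (by positivity)
          have h2 : (Finset.univ.filter fun x : κ × κ => x.1 ≠ x.2).card ≤ Fintype.card κ ^ 2 := by
            refine (Finset.card_le_univ _).trans ?_
            rw [Fintype.card_prod, pow_two]
          rw [hc]
          exact_mod_cast h2
  have h5 : ({P ∈ S | ¬ Q a P}.ncard : ℝ) ≤ ({P ∈ S | ¬ VeryNice p a g P}.ncard : ℝ) +
      ((⋃ x ∈ (Finset.univ.filter fun x : κ × κ => x.1 ≠ x.2), E x).ncard : ℝ) := by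
    have h6 : (⋃ x ∈ (Finset.univ.filter fun x : κ × κ => x.1 ≠ x.2), E x).Finite :=
      Set.Finite.biUnion (Finset.finite_toSet _) fun x _ => hfinE x
    have h7 := Set.ncard_le_ncard hsub ((hfin.subset (Set.sep_subset _ _)).union h6)
    have h8 := Set.ncard_union_le {P ∈ S | ¬ VeryNice p a g P}
      (⋃ x ∈ (Finset.univ.filter fun x : κ × κ => x.1 ≠ x.2), E x)
    exact_mod_cast h7.trans h8
  have h9 : c * ((S.ncard : ℝ) / M) ≤ ε / 2 * (S.ncard : ℝ) := by
    have h10 : c / M ≤ ε / 2 := by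
      rw [div_le_iff₀ hM0]
      rw [div_lt_iff₀ hε] at hM
      linarith
    calc c * ((S.ncard : ℝ) / M) = c / M * (S.ncard : ℝ) := by ring
      _ ≤ ε / 2 * (S.ncard : ℝ) := mul_le_mul_of_nonneg_right h10 (by positivity)
  linarith

end Pool.Agent.V5helper90.NS
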