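import Mathlib
import Pool.Agent.V5helper90.NS.FlipsD
import Pool.Agent.V5helper90.NS.Inj

/-!
# Almost all families in a Newton stratum are independent of a given number field
-/

set_option autoImplicit false

open Polynomial NumberField IntermediateField Module

namespace Pool.Agent.V5helper90.NS

open Pool.Agent.W518.DN

/-- Bezout, for a separable polynomial. -/
theorem exists_bezout (D : ℤ[X]) (hD : (D.map (Int.castRingHom ℚ)).Separable) :
    ∃ (A B : ℤ[X]) (c : ℤ), c ≠ 0 ∧ A * D + B * derivative D = C c := by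
  obtain ⟨a, b, hab⟩ := hD
  obtain ⟨m, hm⟩ := IsLocalization.integerNormalization_map_to_map (nonZeroDivisors ℤ) a
  obtain ⟨n, hn⟩ := IsLocalization.integerNormalization_map_to_map (nonZeroDivisors ℤ) b
  set A0 := IsLocalization.integerNormalization (nonZeroDivisors ℤ) a
  set B0 := IsLocalization.integerNormalization (nonZeroDivisors ℤ) b
  refine ⟨C (n : ℤ) * A0, C (m : ℤ) * B0, (m : ℤ) * (n : ℤ),
    mul_ne_zero (nonZeroDivisors.coe_ne_zero m) (nonZeroDivisors.coe_ne_zero n), ?_⟩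
  apply Polynomial.map_injective (Int.castRingHom ℚ) (RingHom.injective_int _)
  have h1 : A0.map (Int.castRingHom ℚ) = C ((m : ℤ) : ℚ) * a := by
    have h2 : (algebraMap ℤ ℚ) = Int.castRingHom ℚ := rfl
    rw [← h2, hm, Algebra.smul_def]
    rfl
  have h3 : B0.map (Int.castRingHom ℚ) = C ((n : ℤ) : ℚ) * b := by
    have h2 : (algebraMap ℤ ℚ) = Int.castRingHom ℚ := rfl
    rw [← h2, hn, Algebra.smul_def]
    rfl
  have h4 : (derivative D).map (Int.castRingHom ℚ) = derivative (D.map (Int.castRingHom ℚ)) :=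
    (derivative_map D _).symm
  simp only [Polynomial.map_add, Polynomial.map_mul, map_C, h1, h3, h4]
  have h5 : (C ((m : ℤ) * (n : ℤ) : ℤ) : ℤ[X]).map (Int.castRingHom ℚ) =
      C ((m : ℤ) : ℚ) * C ((n : ℤ) : ℚ) * (a * D.map (Int.castRingHom ℚ) +
        b * derivative (D.map (Int.castRingHom ℚ))) := by
    rw [hab, mul_one, map_C, ← C_mul]
    simp
  rw [map_C] at h5
  rw [h5]
  simp only [eq_intCast]
  ring

/-- A polynomial such that the automorphisms which fix its roots fix the field. -/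
theorem exists_poly (L₀ : IntermediateField ℚ ℂ) [FiniteDimensional ℚ L₀] :
    ∃ D : ℤ[X], D.Monic ∧ (D.map (Int.castRingHom ℚ)).Separable ∧
      ∀ σ : ℂ ≃+* ℂ, (∀ x : ℂ, (D.map (Int.castRingHom ℂ)).IsRoot x → σ x = x) →
        ∀ x ∈ L₀, σ x = x := by
  obtain ⟨θ, hθ⟩ := Field.exists_primitive_element ℚ L₀
  have hint : IsIntegral ℚ (θ : ℂ) := (Algebra.IsIntegral.isIntegral (R := ℚ) θ).map L₀.val
  obtain ⟨y, hy⟩ := IsIntegral.exists_multiple_integral_of_isLocalization (nonZeroDivisors ℤ)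
    (θ : ℂ) hint
  have hy0 : ((y : ℤ) : ℂ) ≠ 0 := by exact_mod_cast nonZeroDivisors.coe_ne_zero y
  set α : ℂ := ((y : ℤ) : ℂ) * (θ : ℂ) with hα
  have hαi : IsIntegral ℤ α := by
    have h1 : y • (θ : ℂ) = α := by
      rw [hα, Submonoid.smul_def, zsmul_eq_mul]
    rw [← h1]
    exact hy
  have hmin : (minpoly ℤ α).map (Int.castRingHom ℚ) = minpoly ℚ α :=
    (minpoly.isIntegrallyClosed_eq_field_fractions' ℚ hαi).symm
  refine ⟨minpoly ℤ α, minpoly.monic hαi, ?_, ?_⟩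
  · rw [hmin]
    exact (minpoly.irreducible hαi.tower_top).separable
  · intro σ hσ x hx
    have h1 : σ α = α := by
      apply hσ
      rw [IsRoot.def, eval_map]
      exact minpoly.aeval ℤ α
    have h2 : σ (θ : ℂ) = θ := by
      rw [hα, map_mul, map_intCast] at h1
      exact mul_left_cancel₀ hy0 h1
    -- the fixed field
    let S : Subalgebra ℚ ℂ := AlgHom.equalizer (RingHom.toRatAlgHom (σ : ℂ →+* ℂ)) (AlgHom.id ℚ ℂ)
    have h3 : (⟨x, hx⟩ : L₀) ∈ (ℚ⟮θ⟯ : IntermediateField ℚ L₀) := by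
      rw [hθ]
      exact IntermediateField.mem_top
    have h4 : ∀ z : L₀, z ∈ (ℚ⟮θ⟯ : IntermediateField ℚ L₀) → σ (z : ℂ) = z := by
      intro z hz
      induction hz using IntermediateField.adjoin_induction with
      | mem z hz =>
        rw [Set.mem_singleton_iff] at hz
        rw [hz, h2]
      | algebraMap z =>
        have h5 : ((algebraMap ℚ L₀ z : L₀) : ℂ) = ((z : ℚ) : ℂ) := rfl
        rw [h5, map_ratCast]
      | add z w _ _ h5 h6 =>
        have h7 : ((z + w : L₀) : ℂ) = (z : ℂ) + (w : ℂ) := rfl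
        rw [h7, map_add, h5, h6]
      | inv z _ h5 =>
        have h7 : ((z⁻¹ : L₀) : ℂ) = (z : ℂ)⁻¹ := rfl
        rw [h7, map_inv₀, h5]
      | mul z w _ _ h5 h6 =>
        have h7 : ((z * w : L₀) : ℂ) = (z : ℂ) * (w : ℂ) := rfl
        rw [h7, map_mul, h5, h6]
    exact h4 _ h3

section

variable {κ : Type} {p a : ℕ} {g : κ → ℕ} {P : κ → ℤ[X]} {D : ℤ[X]}

/-- The flip of one pair of roots. -/
theorem flip_at_fix (hF : FlipsFixing p a g P D) (hp : p.Prime) (i : κ) {ρ : ℂ}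
    (hρ : ((P i).map (Int.castRingHom ℂ)).IsRoot ρ) :
    ∃ σ : ℂ ≃+* ℂ, (∀ k (π : ℂ), ((P k).map (Int.castRingHom ℂ)).IsRoot π →
      (π + ((p ^ a : ℕ) : ℂ) / π = ρ + ((p ^ a : ℕ) : ℂ) / ρ → σ π = ((p ^ a : ℕ) : ℂ) / π) ∧
      (π + ((p ^ a : ℕ) : ℂ) / π ≠ ρ + ((p ^ a : ℕ) : ℂ) / ρ → σ π = π)) ∧
      ∀ x : ℂ, (D.map (Int.castRingHom ℂ)).IsRoot x → σ x = x := by
  obtain ⟨h, hP, hm, hd, hirr, hfl⟩ := hF
  have hρ' := hρ
  rw [hP i] at hρ'
  have hy := (root_symm (hm i) (hd i) (pow_ne_zero a hp.ne_zero) hρ').2.2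
  set y := ρ + ((p ^ a : ℕ) : ℂ) / ρ with hydef
  obtain ⟨σ, y0, hy0, hσ, hσD⟩ := hfl i
  obtain ⟨τ, hτ⟩ := exists_map_root (hm i) (hirr i) hy0 hy
  have hroot : ∀ (θ : ℂ ≃+* ℂ) (R : ℤ[X]) (z : ℂ), (R.map (Int.castRingHom ℂ)).IsRoot z →
      (R.map (Int.castRingHom ℂ)).IsRoot (θ z) := by
    intro θ R z hz
    have h2 : R.map (Int.castRingHom ℂ) = (R.map (Int.castRingHom ℂ)).map (θ : ℂ →+* ℂ) := by
      rw [Polynomial.map_map]; congr 1; exact RingHom.ext_int _ _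
    rw [h2]
    exact hz.map
  refine ⟨(τ.symm.trans σ).trans τ, fun k π hπ => ?_, fun x hx => ?_⟩
  · have hπ' := hroot τ.symm (P k) π hπ
    have h1 : τ.symm π + ((p ^ a : ℕ) : ℂ) / τ.symm π = τ.symm (π + ((p ^ a : ℕ) : ℂ) / π) := by
      rw [map_add, map_div₀, map_natCast]
    have h2 : τ.symm (π + ((p ^ a : ℕ) : ℂ) / π) = y0 ↔ π + ((p ^ a : ℕ) : ℂ) / π = y := by
      rw [← hτ]
      constructor
      · intro h; rw [← h, RingEquiv.apply_symm_apply]
      · intro h; rw [h, RingEquiv.symm_apply_apply]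
    obtain ⟨hA, hB⟩ := hσ k _ hπ'
    rw [h1] at hA hB
    constructor
    · intro h
      show τ (σ (τ.symm π)) = _
      rw [hA (h2.2 h), map_div₀, map_natCast, RingEquiv.apply_symm_apply]
    · intro h
      show τ (σ (τ.symm π)) = _
      rw [hB (fun h' => h (h2.1 h')), RingEquiv.apply_symm_apply]
  · show τ (σ (τ.symm x)) = x
    rw [hσD _ (hroot τ.symm D x hx), RingEquiv.apply_symm_apply]

end

/-- The properties of almost all families, relative to a number field `L₀`. -/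
structure OverNice {κ : Type} (L₀ : IntermediateField ℚ ℂ) (p a : ℕ) (g : κ → ℕ)
    (P : κ → ℤ[X]) : Prop where
  very : VeryNice p a g P
  inj : Function.Injective P
  flip : ∀ i (ρ : ℂ), ((P i).map (Int.castRingHom ℂ)).IsRoot ρ →
    ∃ σ : ℂ ≃+* ℂ, (∀ k (π : ℂ), ((P k).map (Int.castRingHom ℂ)).IsRoot π →
      (π + ((p ^ a : ℕ) : ℂ) / π = ρ + ((p ^ a : ℕ) : ℂ) / ρ → σ π = ((p ^ a : ℕ) : ℂ) / π) ∧
      (π + ((p ^ a : ℕ) : ℂ) / π ≠ ρ + ((p ^ a : ℕ) : ℂ) / ρ → σ π = π)) ∧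
      ∀ x ∈ L₀, σ x = x

/-- **Density one in every Newton stratum, relative to a number field.** -/
theorem density_over {κ : Type} [Fintype κ] [Nonempty κ] (L₀ : IntermediateField ℚ ℂ)
    [FiniteDimensional ℚ L₀] (p : ℕ) [hp : Fact p.Prime]
    (g : κ → ℕ) (hg : ∀ i, 1 ≤ g i) (s : ∀ i, Fin (g i) → ℚ) (hs : ∀ i, IsNewtonPolygon (s i))
    (hss : ∀ i, ∃ j, s i j < 1 / 2) (N : ℕ) (ε : ℝ) (hε : 0 < ε)
    (Q : ℕ → (κ → ℤ[X]) → Prop) (hQ : ∀ a P, 0 < a →
      P ∈ Pool.Agent.V5helper90.NS.Stratum g s p a → OverNice L₀ p a g P → Q a P) :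
    ∃ a₀ : ℕ, ∀ a, a₀ ≤ a →
      (Pool.Agent.V5helper90.NS.Stratum g s p a).Finite ∧
      N ≤ (Pool.Agent.V5helper90.NS.Stratum g s p a).ncard ∧
      ({P ∈ Pool.Agent.V5helper90.NS.Stratum g s p a | ¬ Q a P}.ncard : ℝ) ≤
        ε * ((Pool.Agent.V5helper90.NS.Stratum g s p a).ncard : ℝ) := by
  classical
  obtain ⟨D, hDm, hDs, hDσ⟩ := exists_poly L₀
  obtain ⟨A, B, c, hc, hD⟩ := exists_bezout D hDs
  obtain ⟨a₀, h₀⟩ := density_fixing g s p D hDm A B c hD hc hg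
    (fun i => ⟨(hs i).mono, (hs i).nonneg, (hs i).le_half, (hs i).integral⟩) hss N (ε / 2)
    (by positivity)
  obtain ⟨a₁, h₁⟩ := density_inj p g hg s hs hss N (ε / 2) (by positivity)
    (fun _ P => Function.Injective P) (fun _ _ _ _ _ h => h)
  refine ⟨a₀ + a₁ + 1, fun a ha => ?_⟩
  obtain ⟨hfin, hN, hb0⟩ := h₀ a (by omega)
  obtain ⟨-, -, hb1⟩ := h₁ a (by omega)
  refine ⟨hfin, hN, ?_⟩
  change ((({P ∈ Pool.Agent.V5helper90.NS.Stratum g s p a | ¬ FlipsFixing p a g P D}.ncard : ℕ) :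
    ℝ) ≤ ε / 2 * (Pool.Agent.V5helper90.NS.Stratum g s p a).ncard) at hb0
  set S := Pool.Agent.V5helper90.NS.Stratum g s p a with hS
  have hfin' : S.Finite := hfin
  have hsub : {P ∈ S | ¬ Q a P} ⊆ {P ∈ S | ¬ FlipsFixing p a g P D} ∪
      {P ∈ S | ¬ Function.Injective P} := by
    rintro P ⟨hP, hPQ⟩
    by_cases h1 : FlipsFixing p a g P D
    · right
      refine ⟨hP, fun h2 => hPQ (hQ a P (by omega) hP ⟨veryNice_of_mem hss (by omega) hP
        h1.hasFlips, h2, fun i ρ hρ => ?_⟩)⟩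
      obtain ⟨σ, h3, h4⟩ := flip_at_fix h1 hp.out i hρ
      exact ⟨σ, h3, hDσ σ h4⟩
    · left
      exact ⟨hP, h1⟩
  have h6 := Set.ncard_le_ncard hsub ((hfin'.subset (Set.sep_subset _ _)).union
    (hfin'.subset (Set.sep_subset _ _)))
  have h7 := Set.ncard_union_le {P ∈ S | ¬ FlipsFixing p a g P D}
    {P ∈ S | ¬ Function.Injective P}
  have h8 : ({P ∈ S | ¬ Q a P}.ncard : ℝ) ≤ ({P ∈ S | ¬ FlipsFixing p a g P D}.ncard : ℝ) +
      ({P ∈ S | ¬ Function.Injective P}.ncard : ℝ) := by exact_mod_cast h6.trans h7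
  linarith

end Pool.Agent.V5helper90.NS
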