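import Mathlib
import Pool.Agent.V5helper90.NS.Inj
import Pool.Agent.Y137.MV.Criteria
import Pool.Agent.TH170.FT.MT

/-!
# The Mumford-Tate conjecture from one Frobenius element with flips
-/

set_option autoImplicit false

open Polynomial NumberField IntermediateField Module

namespace Pool.Agent.V5helper90.NS

open Pool.Agent.W518.DN Pool.Agent.V5helper90.TB Pool.Agent.H204R3.GP Pool.Agent.TH170.FT

section

variable {κ : Type} {p a : ℕ} [hp : Fact p.Prime] {g : κ → ℕ} {P : κ → ℤ[X]}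

theorem natDegree_of (hF : HasFlips p a g P) (i : κ) : (P i).natDegree = 2 * g i := by
  obtain ⟨H, hP, hmH, hd, -, -⟩ := hF
  have h1 := (lift_monic ((p ^ a : ℕ) : ℤ) (g i) (H i) (hmH i) (hd i)).2
  rwa [← hP i] at h1

theorem adjoin_top {K : Type} [Field K] [NumberField K] {x : K}
    (hext : ∀ φ ψ : K →+* ℂ, φ x = ψ x → φ = ψ) : IntermediateField.adjoin ℚ {x} = ⊤ := by
  refine (Field.primitive_element_iff_algHom_eq_of_eval' ℚ ℂ (fun y => IsAlgClosed.splits _)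
    x).2 ?_
  intro φ ψ h
  have h1 := hext (φ : K →+* ℂ) (ψ : K →+* ℂ) h
  ext y
  exact RingHom.congr_fun h1 y

/-- The polynomial is the minimal polynomial of its roots. -/
theorem minpoly_eq {K : Type} [Field K] [NumberField K] {i : κ} {x : K}
    (hF : HasFlips p a g P) (hx : ((P i).map (Int.castRingHom K)).IsRoot x)
    (htop : IntermediateField.adjoin ℚ {x} = ⊤) (hfin : 2 * g i ≤ finrank ℚ K) :
    minpoly ℚ x = (P i).map (Int.castRingHom ℚ) := by
  have hm := monic_of hF i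
  have hint : IsIntegral ℚ x := Algebra.IsIntegral.isIntegral x
  have h0 : aeval x ((P i).map (Int.castRingHom ℚ)) = 0 := by
    rw [aeval_def, ← eval_map, Polynomial.map_map]
    have h2 : (algebraMap ℚ K).comp (Int.castRingHom ℚ) = Int.castRingHom K :=
      RingHom.ext_int _ _
    rw [h2]
    exact hx
  have hdvd := minpoly.dvd ℚ _ h0
  have hdeg : (minpoly ℚ x).natDegree = finrank ℚ K := by
    rw [← adjoin.finrank hint, htop]
    exact IntermediateField.finrank_top'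
  refine (Polynomial.eq_of_monic_of_dvd_of_natDegree_le (minpoly.monic hint) (hm.map _) hdvd
    ?_).symm
  rw [hm.natDegree_map, natDegree_of hF, hdeg]
  exact hfin

/-- The Mumford-Tate conjecture, in terms of the fields. -/
theorem mumfordTate_fields [Fintype κ] (ha : 0 < a) (h : VeryNice p a g P)
    (hinj : Function.Injective P) {K : κ → Type} [∀ i, Field (K i)] [∀ i, NumberField (K i)]
    [∀ i, IsCMField (K i)]
    (π : ∀ i, K i) (hπ : ∀ i, ((P i).map (Int.castRingHom (K i))).IsRoot (π i))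
    (hext : ∀ i (φ ψ : K i →+* ℂ), φ (π i) = ψ (π i) → φ = ψ)
    (hfin : ∀ i, 2 * g i ≤ finrank ℚ (K i))
    {ℓ : ℕ} [Fact ℓ.Prime] {W T V Γ : Type} [AddCommGroup W] [Module ℚ W]
    [AddCommGroup T] [Module ℂ T] [AddCommGroup V] [Module ℚ_[ℓ] V] [FiniteDimensional ℚ_[ℓ] V]
    [Group Γ] {per : W →+ T} {ω₀ : W →ₗ[ℚ] W →ₗ[ℚ] ℚ} {comp : W →+ V}
    {ρ : Representation ℚ_[ℓ] Γ V} {χ : Γ →* ℚ_[ℓ]} {ω : V →ₗ[ℚ_[ℓ]] V →ₗ[ℚ_[ℓ]] ℚ_[ℓ]}
    (hR : IsRealization per ω₀ comp ρ χ ω) (hF : ∃ γ : Γ, χ γ = ((p ^ a : ℕ) : ℚ_[ℓ]) ∧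
      (ρ γ).charpoly = ∏ i, (P i).map (Int.castRingHom ℚ_[ℓ])) :
    MumfordTateStrong per comp ρ χ := by
  classical
  have hang := angle h.nice h.pow hinj π hπ hext
  have hgen : ∀ i, IntermediateField.adjoin ℚ {π i} = ⊤ := fun i => adjoin_top (hext i)
  have hmin : ∀ i, minpoly ℚ (π i) = (P i).map (Int.castRingHom ℚ) := fun i =>
    minpoly_eq h.nice.flips (hπ i) (hgen i) (hfin i)
  have hroot : ∀ i (φ : K i →+* ℂ), ((P i).map (Int.castRingHom ℂ)).IsRoot (φ (π i)) := by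
    intro i φ
    have h2 : (P i).map (Int.castRingHom ℂ) = ((P i).map (Int.castRingHom (K i))).map φ := by
      rw [Polynomial.map_map]; congr 1; exact RingHom.ext_int _ _
    rw [h2]
    exact (hπ i).map
  have hw : ∀ i, π i * IsCMField.complexConj (K i) (π i) = (p : K i) ^ a := by
    intro i
    obtain ⟨φ⟩ : Nonempty (K i →+* ℂ) := inferInstance
    apply φ.injective
    rw [map_mul, IsCMField.complexEmbedding_complexConj, map_pow, map_natCast,
      ← h.nice.conj (hroot i φ), mul_div_cancel₀ _ (root_ne h.nice.flips hp.out (hroot i φ))]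
    push_cast
    rfl
  obtain ⟨L, hL1, hL2, j, hj⟩ := Pool.Agent.H204R3.CM.exists_galois K
  refine mumfordTate ha hgen hw j hj (Pool.Agent.Y137.MV.neat_of_angle j hang) hR ?_
  obtain ⟨γ, h1, h2⟩ := hF
  refine ⟨γ, by rw [h1]; push_cast; rfl, ?_⟩
  rw [h2]
  refine Finset.prod_congr rfl fun i _ => ?_
  rw [hmin i, Polynomial.map_map]
  congr 1

theorem mumfordTate_of_nice [Fintype κ] (hg : ∀ i, 1 ≤ g i) (ha : 0 < a) (h : VeryNice p a g P)
    (hinj : Function.Injective P)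
    {ℓ : ℕ} [Fact ℓ.Prime] {W T V Γ : Type} [AddCommGroup W] [Module ℚ W]
    [AddCommGroup T] [Module ℂ T] [AddCommGroup V] [Module ℚ_[ℓ] V] [FiniteDimensional ℚ_[ℓ] V]
    [Group Γ] {per : W →+ T} {ω₀ : W →ₗ[ℚ] W →ₗ[ℚ] ℚ} {comp : W →+ V}
    {ρ : Representation ℚ_[ℓ] Γ V} {χ : Γ →* ℚ_[ℓ]} {ω : V →ₗ[ℚ_[ℓ]] V →ₗ[ℚ_[ℓ]] ℚ_[ℓ]}
    (hR : IsRealization per ω₀ comp ρ χ ω) (hF : ∃ γ : Γ, χ γ = ((p ^ a : ℕ) : ℚ_[ℓ]) ∧
      (ρ γ).charpoly = ∏ i, (P i).map (Int.castRingHom ℚ_[ℓ])) :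
    MumfordTateStrong per comp ρ χ := by
  choose E hE1 hE2 hE3 z hz using fun i => exists_cm h.nice i (hg i)
  have hCM : ∀ i, IsCMField ℚ⟮z i⟯ := fun i => isCM h.nice (hz i)
  exact mumfordTate_fields ha h hinj (K := fun i => ℚ⟮z i⟯) (fun i => AdjoinSimple.gen ℚ (z i))
    (fun i => gen_root (hz i)) (fun i φ ψ h1 => ext_gen h1)
    (fun i => finrank_ge h.nice (hz i)) hR hF

end

end Pool.Agent.V5helper90.NS
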