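import Mathlib
import Pool.Agent.V5helper90.NS.Field2
import Pool.Agent.V5helper90.NS.Defs
import Pool.Agent.V5helper90.TB.Cover

/-!
# Almost all families in a Newton stratum
-/

set_option autoImplicit false

open Polynomial NumberField IntermediateField Module

namespace Pool.Agent.V5helper90.NS

open Pool.Agent.W495.TA Pool.Agent.W518.TC Pool.Agent.V5helper90.TB Pool.Agent.Y137.SF
  Pool.Agent.H204R3.CM Pool.Agent.TH117

theorem stratum_eq {κ : Type} (g : κ → ℕ) (s : ∀ i, Fin (g i) → ℚ) (p : ℕ) [Fact p.Prime] (a : ℕ) :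
    Stratum g s p a = Pool.Agent.W518.DN.Stratum g s p a := rfl

theorem isNewton_of {g : ℕ} {s : Fin g → ℚ} (h : IsNewtonPolygon s) :
    Pool.Agent.W518.DN.IsNewton s := ⟨h.mono, h.nonneg, h.le_half, h.integral⟩

section blocks

variable {κ : Type} {p a : ℕ} [hp : Fact p.Prime] {ν : PadicAlgCl p ≃+* ℂ} {g : κ → ℕ}
  {P : κ → ℤ[X]}

theorem nice_of_mem {s : ∀ i, Fin (g i) → ℚ} (hss : ∀ i, ∃ j, s i j < 1 / 2) (ha : 0 < a)
    (hP : P ∈ Stratum g s p a) (hF : HasFlips p a g P) : Nice p a g P :=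
  ⟨hF, fun i => (hP i).1.weil,
    fun i _ hz => sq_ne hF (hP i).1.weil ha (hP i).2.2 (hss i) hz⟩

theorem irreducible_factor (h : Nice p a g P) {Z : RedAV p ν} {k : Z.X.I} {i : κ}
    (hk : IsPowerOfMember Z k a (P i)) : ∃ (K : Type) (_ : Field K) (_ : NumberField K)
      (_ : IsCMField K), IsFrobeniusField Z k K ∧ OddIrreducible K ∧ 2 * g i ≤ finrank ℚ K := by
  obtain ⟨z, s, t, hs, ht, -, hz, hπ⟩ := hk
  have hz' : ((P i).map (Int.castRingHom _)).IsRoot z := by
    rw [IsRoot.def, eval_map]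
    exact hz
  refine ⟨ℚ⟮z⟯, inferInstance, inferInstance, isCM h hz', ?_, oddIrreducible h hz',
    finrank_ge h hz'⟩
  exact ⟨algebraMap ℚ⟮z⟯ _, AdjoinSimple.gen ℚ z ^ t, s, hs, by
    rw [map_pow, AdjoinSimple.algebraMap_gen, hπ]⟩

theorem independent_factors (h : Nice p a g P) {Z : RedAV p ν} {k k' : Z.X.I} {i i' : κ}
    (hii : P i ≠ P i') (hk : IsPowerOfMember Z k a (P i)) (hk' : IsPowerOfMember Z k' a (P i')) :
    Independent Z k k' := by
  obtain ⟨z, s, t, hs, ht, -, hz, hπ⟩ := hk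
  obtain ⟨z', s', t', hs', ht', -, hz', hπ'⟩ := hk'
  have h1 : ((P i).map (Int.castRingHom _)).IsRoot z := by
    rw [IsRoot.def, eval_map]
    exact hz
  have h2 : ((P i').map (Int.castRingHom _)).IsRoot z' := by
    rw [IsRoot.def, eval_map]
    exact hz'
  refine Or.inr (Or.inr ⟨ℚ⟮z⟯, ℚ⟮z'⟯, inferInstance, inferInstance, isCM h h1, inferInstance,
    inferInstance, isCM h h2, ?_, ?_, Or.inl (flipped h hii h1 h2)⟩)
  · exact ⟨algebraMap ℚ⟮z⟯ _, AdjoinSimple.gen ℚ z ^ t, s, hs, by
      rw [map_pow, AdjoinSimple.algebraMap_gen, hπ]⟩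
  · exact ⟨algebraMap ℚ⟮z'⟯ _, AdjoinSimple.gen ℚ z' ^ t', s', hs', by
      rw [map_pow, AdjoinSimple.algebraMap_gen, hπ']⟩

theorem small_empty {Z : RedAV p ν} {S : Set Z.X.I} (h : S = ∅) : IsSmallBlock Z S := by
  subst h
  exact Or.inl ⟨fun i hi => absurd hi (Set.notMem_empty i),
    fun i hi => absurd hi (Set.notMem_empty i)⟩

/-- Families with flips are in independent blocks. -/
theorem inBlocks (h : Nice p a g P) {Z : RedAV p ν} (hZ : OfFamily a g P Z) : InBlocks Z := by
  classical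
  obtain ⟨S, c, hS, h1, h2, h3⟩ := hZ
  refine ⟨Option Z.X.I, fun k => if k ∈ S then none else some k, ?_, ?_⟩
  · intro i k hik
    simp only at hik
    by_cases hi : i ∈ S <;> by_cases hk : k ∈ S
    · rw [if_pos hi, if_pos hk] at hik
      exact absurd rfl hik
    · obtain ⟨K, _, _, _, h4, h5, h6⟩ := irreducible_factor h (h1 k hk)
      exact Or.inr (Or.inr ⟨(Z.X.factor i).E, K, inferInstance, inferInstance, inferInstance,
        inferInstance, inferInstance, inferInstance,
        ⟨RingHom.id _, Z.π i, 1, one_pos, (pow_one _).symm⟩, h4,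
        Or.inr (Or.inr ⟨Or.inl h5, Or.inl ((h3 i hi k hk).trans_le h6)⟩)⟩)
    · obtain ⟨K, _, _, _, h4, h5, h6⟩ := irreducible_factor h (h1 i hi)
      exact Or.inr (Or.inr ⟨K, (Z.X.factor k).E, inferInstance, inferInstance, inferInstance,
        inferInstance, inferInstance, inferInstance, h4,
        ⟨RingHom.id _, Z.π k, 1, one_pos, (pow_one _).symm⟩,
        Or.inr (Or.inl ⟨Or.inl h5, Or.inl ((h3 k hk i hi).trans_le h6)⟩)⟩)
    · rw [if_neg hi, if_neg hk] at hik
      have hne : i ≠ k := fun h => hik (by rw [h])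
      exact independent_factors h (h2 i hi k hk hne) (h1 i hi) (h1 k hk)
  · intro d
    rcases d with _ | k
    · left
      have h4 : {i | (if i ∈ S then none else some i : Option Z.X.I) = none} = S := by
        ext i
        by_cases hi : i ∈ S
        · simp [hi]
        · simp [hi]
      rw [h4]
      exact hS
    · by_cases hk : k ∈ S
      · left
        apply small_empty
        ext i
        by_cases hi : i ∈ S
        · simp [hi]
        · simp only [Set.mem_setOf_eq, if_neg hi, Option.some_inj, Set.mem_empty_iff_false,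
            iff_false]
          intro h
          exact hi (h ▸ hk)
      · right
        refine ⟨k, ?_, ?_⟩
        · ext i
          by_cases hi : i ∈ S
          · simp only [Set.mem_setOf_eq, if_pos hi, Set.mem_singleton_iff]
            constructor
            · intro h
              exact absurd h (by simp)
            · intro h
              exact absurd (h ▸ hi) hk
          · simp only [Set.mem_setOf_eq, if_neg hi, Option.some_inj, Set.mem_singleton_iff]
        · obtain ⟨K, _, _, _, h4, h5, -⟩ := irreducible_factor h (h1 k hk)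
          exact ⟨K, inferInstance, inferInstance, inferInstance, h4, Or.inl h5⟩

theorem jannsen_nice (h : Nice p a g P) (ν : PadicAlgCl p ≃+* ℂ) :
    JannsenHolds p ν (IsGeneratedByFamily a g P) := by
  refine jannsen_of fun Y hY Ω _ _ _ m f hf => ?_
  obtain ⟨Z, hZ, hY⟩ := hY
  exact elementaryS Z (hasElementaryRelations (inBlocks h hZ)) Ω Y hY 1 m one_pos f hf

end blocks

/-- **Density one in every Newton stratum.** -/
theorem density {κ : Type} [Fintype κ] [Nonempty κ] (p : ℕ) [Fact p.Prime]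
    (g : κ → ℕ) (hg : ∀ i, 1 ≤ g i) (s : ∀ i, Fin (g i) → ℚ) (hs : ∀ i, IsNewtonPolygon (s i))
    (hss : ∀ i, ∃ j, s i j < 1 / 2) (N : ℕ) (ε : ℝ) (hε : 0 < ε)
    (Q : ℕ → (κ → ℤ[X]) → Prop) (hQ : ∀ a P, 0 < a → Nice p a g P → Q a P) :
    ∃ a₀ : ℕ, ∀ a, a₀ ≤ a →
      (Stratum g s p a).Finite ∧ N ≤ (Stratum g s p a).ncard ∧
      ({P ∈ Stratum g s p a | ¬ Q a P}.ncard : ℝ) ≤ ε * ((Stratum g s p a).ncard : ℝ) := by
  classical
  obtain ⟨a0, ha0⟩ := density_flips g s p hg (fun i => isNewton_of (hs i)) hss N ε hε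
  refine ⟨a0 + 1, fun a ha => ?_⟩
  obtain ⟨h1, h2, h3⟩ := ha0 a (by omega)
  refine ⟨h1, h2, le_trans ?_ h3⟩
  have h4 : {P ∈ Stratum g s p a | ¬ Q a P} ⊆
      {P ∈ Pool.Agent.W518.DN.Stratum g s p a | ¬ HasFlips p a g P} := by
    rintro P ⟨hP, hPQ⟩
    exact ⟨hP, fun hF => hPQ (hQ a P (by omega) (nice_of_mem hss (by omega) hP hF))⟩
  have h5 := Set.ncard_le_ncard h4 (h1.subset (Set.sep_subset _ _))
  exact_mod_cast h5

end Pool.Agent.V5helper90.NS
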